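import Mathlib

/-!
# Schubert and key polynomials: definitions (MP_26ab9b_co)

Positions, values and variables are indexed from `0` instead of `1`: the variable `x_{i+1}` of the
problem is `X i`, permutations act on `0, 1, 2, …`, and `s_i` exchanges `i` and `i + 1`.
-/

namespace Pool.Agent.Lib.MP_26ab9b_co

open MvPolynomial

/-- Polynomials with integer coefficients in the variables `X 0, X 1, …`. -/
abbrev Poly : Type := MvPolynomial ℕ ℤ

/-- `s_i` acting on polynomials: it swaps the variables `X i` and `X (i+1)`. -/
noncomputable def swapVars (i : ℕ) : Poly →ₐ[ℤ] Poly := rename (Equiv.swap i (i + 1))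

lemma dvd_sub_swapVars (i : ℕ) (f : Poly) : (X i - X (i + 1)) ∣ f - swapVars i f := by
  induction f using MvPolynomial.induction_on with
  | C a => simp [swapVars]
  | add p q hp hq =>
    have : p + q - swapVars i (p + q) = (p - swapVars i p) + (q - swapVars i q) := by
      rw [map_add]; ring
    rw [this]
    exact dvd_add hp hq
  | mul_X p n hp =>
    have h : p * X n - swapVars i (p * X n) =
        (p - swapVars i p) * X n + swapVars i p * (X n - swapVars i (X n)) := by
      rw [map_mul]; ring
    rw [h]
    refine dvd_add (Dvd.dvd.mul_right hp _) (Dvd.dvd.mul_left ?_ _)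
    by_cases h1 : n = i
    · subst h1
      simp [swapVars]
    by_cases h2 : n = i + 1
    · subst h2
      simp only [swapVars, rename_X, Equiv.swap_apply_right]
      exact ⟨-1, by ring⟩
    · simp [swapVars, Equiv.swap_apply_of_ne_of_ne h1 h2]

/-- The divided difference `∂_i f = (f - s_i f) / (x_i - x_{i+1})`. -/
noncomputable def divDiff (i : ℕ) (f : Poly) : Poly := Classical.choose (dvd_sub_swapVars i f)

/-- The Demazure operator `π_i f = ∂_i (x_i f) = (x_i f - x_{i+1} s_i f) / (x_i - x_{i+1})`. -/
noncomputable def demazure (i : ℕ) (f : Poly) : Poly := divDiff i (X i * f)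

/-- Permutations of `0, 1, 2, …` fixing all but finitely many points. -/
structure FinPerm where
  toPerm : Equiv.Perm ℕ
  finite : {i | toPerm i ≠ i}.Finite

instance : CoeFun FinPerm (fun _ => ℕ → ℕ) := ⟨fun w => w.toPerm⟩

/-- The permutation `w s_i`: its one-line notation is that of `w` with the entries at the
positions `i` and `i + 1` exchanged. -/
def FinPerm.mulSwap (w : FinPerm) (i : ℕ) : FinPerm :=
  ⟨w.1 * Equiv.swap i (i + 1), by
    refine (w.2.union (Set.toFinite {i, i + 1})).subset ?_
    intro j hj
    by_cases h1 : j = i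
    · right; left; exact h1
    by_cases h2 : j = i + 1
    · right; right; exact h2
    left
    simpa [Equiv.swap_apply_of_ne_of_ne h1 h2] using hj⟩

/-- The permutation `n-1, n-2, …, 0, n, n+1, …` (the longest element of `S_n`). -/
def FinPerm.longest (n : ℕ) : FinPerm :=
  ⟨Function.Involutive.toPerm (fun i => if i < n then n - 1 - i else i) (by
    intro i
    by_cases h : i < n
    · simp only [if_pos h]
      rw [if_pos (by omega)]
      omega
    · simp only [if_neg h]), by
    refine (Set.finite_Iio n).subset ?_
    intro i hi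
    by_contra h
    exact hi (if_neg h)⟩

/-- The Lehmer code: `code w i = #{j > i : w j < w i}`. -/
noncomputable def code (w : FinPerm) (i : ℕ) : ℕ := {j | i < j ∧ w j < w i}.ncard

/-- The defining properties of the Schubert polynomials (Lascoux–Schützenberger):
`𝔖_{w_0} = x_0^{n-1} x_1^{n-2} ⋯ x_{n-2}` for the longest element `w_0` of `S_n`, and
`𝔖_{w s_i} = ∂_i 𝔖_w` whenever `w i > w (i + 1)`. -/
structure IsSchubertFamily (S : FinPerm → Poly) : Prop where
  longest : ∀ n, S (FinPerm.longest n) = ∏ i ∈ Finset.range n, X i ^ (n - 1 - i)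
  step : ∀ (w : FinPerm) (i : ℕ), w (i + 1) < w i → S (w.mulSwap i) = divDiff i (S w)

/-- The composition `s_i α`: the entries at the positions `i`, `i + 1` are exchanged. -/
noncomputable def swapParts (i : ℕ) (α : ℕ →₀ ℕ) : ℕ →₀ ℕ :=
  Finsupp.equivMapDomain (Equiv.swap i (i + 1)) α

/-- The defining properties of the key polynomials: `κ_α = x^α` if `α` is weakly decreasing, and
`κ_α = π_i κ_{s_i α}` whenever `α_i < α_{i+1}`. (Weak compositions, padded with zeroes, are
finitely supported functions.) -/
structure IsKeyFamily (κ : (ℕ →₀ ℕ) → Poly) : Prop where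
  dominant : ∀ α : ℕ →₀ ℕ, Antitone α → κ α = monomial α 1
  step : ∀ (α : ℕ →₀ ℕ) (i : ℕ), α i < α (i + 1) → κ α = demazure i (κ (swapParts i α))

end Pool.Agent.Lib.MP_26ab9b_co
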