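import Mathlib

/-!
# Sequences, adjacent swaps and recursively defined functions (MP_26ab9b_co)
-/

namespace Pool.Agent.Lib.MP_26ab9b_co

/-- The sequence `x` with the entries at the positions `i`, `i+1` exchanged. -/
def sw {R : Type*} (i : ℕ) (x : ℕ → R) : ℕ → R := fun j => x (Equiv.swap i (i + 1) j)

section sw
variable {R : Type*} (x : ℕ → R)

@[simp] lemma sw_left (i : ℕ) : sw i x i = x (i + 1) := by simp [sw]
@[simp] lemma sw_right (i : ℕ) : sw i x (i + 1) = x i := by simp [sw]
lemma sw_of_ne {i j : ℕ} (h1 : j ≠ i) (h2 : j ≠ i + 1) : sw i x j = x j := by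
  simp [sw, Equiv.swap_apply_of_ne_of_ne h1 h2]

@[simp] lemma sw_sw (i : ℕ) : sw i (sw i x) = x := by
  funext j; simp [sw]

lemma sw_comm {i j : ℕ} (h : i + 1 < j) : sw i (sw j x) = sw j (sw i x) := by
  funext k
  by_cases h1 : k = i
  · subst h1
    rw [sw_left, sw_of_ne x (by omega) (by omega), sw_of_ne (sw k x) (by omega) (by omega), sw_left]
  by_cases h2 : k = i + 1
  · subst h2
    rw [sw_right, sw_of_ne x (by omega) (by omega), sw_of_ne (sw i x) (by omega) (by omega),
      sw_right]
  rw [sw_of_ne _ h1 h2]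
  by_cases h3 : k = j
  · subst h3
    rw [sw_left, sw_left, sw_of_ne x (by omega) (by omega)]
  by_cases h4 : k = j + 1
  · subst h4
    rw [sw_right, sw_right, sw_of_ne x (by omega) (by omega)]
  rw [sw_of_ne _ h3 h4, sw_of_ne _ h3 h4, sw_of_ne _ h1 h2]

lemma sw_braid (i : ℕ) :
    sw i (sw (i + 1) (sw i x)) = sw (i + 1) (sw i (sw (i + 1) x)) := by
  funext k
  by_cases h1 : k = i
  · subst h1
    rw [sw_left, sw_left, sw_of_ne x (by omega) (by omega),
      sw_of_ne (sw k (sw (k + 1) x)) (by omega) (by omega), sw_left, sw_left]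
  by_cases h2 : k = i + 1
  · subst h2
    rw [sw_right, sw_left, sw_of_ne (sw i x) (by omega) (by omega), sw_left,
      sw_of_ne (sw (i + 1) x) (by omega) (by omega), sw_right]
  by_cases h3 : k = i + 1 + 1
  · subst h3
    rw [sw_right, sw_of_ne (sw (i + 1) (sw i x)) (by omega) (by omega), sw_right, sw_right,
      sw_right, sw_of_ne x (by omega) (by omega)]
  rw [sw_of_ne _ h1 h2, sw_of_ne _ h2 h3, sw_of_ne _ h1 h2, sw_of_ne _ h2 h3, sw_of_ne _ h1 h2,
    sw_of_ne _ h2 h3]

end sw

section asc
variable {R : Type*} [LinearOrder R]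

/-- The number of pairs `a < b < B` with `x a < x b`. -/
def asc (B : ℕ) (x : ℕ → R) : ℕ :=
  ((Finset.range B ×ˢ Finset.range B).filter (fun q => q.1 < q.2 ∧ x q.1 < x q.2)).card

lemma asc_sw_lt {B : ℕ} {x : ℕ → R} {i : ℕ} (hi : i + 1 < B) (h : x i < x (i + 1)) :
    asc B (sw i x) < asc B x := by
  unfold asc
  set s := Equiv.swap i (i + 1) with hs
  have hsB : ∀ a, a < B → s a < B := by
    intro a ha
    by_cases h1 : a = i
    · rw [h1, hs, Equiv.swap_apply_left]; exact hi
    by_cases h2 : a = i + 1
    · rw [h2, hs, Equiv.swap_apply_right]; omega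
    rw [hs, Equiv.swap_apply_of_ne_of_ne h1 h2]; exact ha
  have hmono : ∀ a b, a < b → ¬ (a = i ∧ b = i + 1) → s a < s b := by
    intro a b hab hne
    by_cases a1 : a = i
    · by_cases b2 : b = i + 1
      · exact absurd ⟨a1, b2⟩ hne
      · subst a1
        rw [hs, Equiv.swap_apply_left, Equiv.swap_apply_of_ne_of_ne (by omega) b2]
        omega
    by_cases a2 : a = i + 1
    · subst a2
      rw [hs, Equiv.swap_apply_right, Equiv.swap_apply_of_ne_of_ne (by omega) (by omega)]
      omega
    rw [hs, Equiv.swap_apply_of_ne_of_ne a1 a2]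
    by_cases b1 : b = i
    · subst b1
      rw [Equiv.swap_apply_left]; omega
    by_cases b2 : b = i + 1
    · subst b2
      rw [Equiv.swap_apply_right]; omega
    rw [Equiv.swap_apply_of_ne_of_ne b1 b2]; exact hab
  set T := (Finset.range B ×ˢ Finset.range B).filter (fun q => q.1 < q.2 ∧ x q.1 < x q.2) with hT
  have himg : ((Finset.range B ×ˢ Finset.range B).filter
      (fun q => q.1 < q.2 ∧ sw i x q.1 < sw i x q.2)).image (fun q => (s q.1, s q.2)) ⊆
      T.erase (i, i + 1) := by
    intro q hq
    rw [Finset.mem_image] at hq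
    obtain ⟨⟨a, b⟩, hab, rfl⟩ := hq
    simp only [Finset.mem_filter, Finset.mem_product, Finset.mem_range] at hab
    obtain ⟨⟨ha, hb⟩, hlt, hx⟩ := hab
    have hne : ¬ (a = i ∧ b = i + 1) := by
      rintro ⟨rfl, rfl⟩
      rw [sw_left, sw_right] at hx
      exact absurd hx (not_lt.2 h.le)
    rw [Finset.mem_erase, hT, Finset.mem_filter, Finset.mem_product, Finset.mem_range,
      Finset.mem_range]
    refine ⟨?_, ⟨hsB a ha, hsB b hb⟩, hmono a b hlt hne, hx⟩
    intro heq
    rw [Prod.mk.injEq] at heq
    have h1 : a = i + 1 := by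
      have := congrArg s heq.1
      rw [hs, Equiv.swap_apply_self, Equiv.swap_apply_left] at this
      exact this
    have h2 : b = i := by
      have := congrArg s heq.2
      rw [hs, Equiv.swap_apply_self, Equiv.swap_apply_right] at this
      exact this
    omega
  have hinj : Function.Injective (fun q : ℕ × ℕ => (s q.1, s q.2)) := by
    rintro ⟨a, b⟩ ⟨c, d⟩ hcd
    simp only [Prod.mk.injEq, EmbeddingLike.apply_eq_iff_eq] at hcd
    rw [hcd.1, hcd.2]
  calc _ = _ := (Finset.card_image_of_injective _ hinj).symm
    _ ≤ (T.erase (i, i + 1)).card := Finset.card_le_card himg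
    _ < T.card := by
        apply Finset.card_erase_lt_of_mem
        rw [hT, Finset.mem_filter, Finset.mem_product, Finset.mem_range, Finset.mem_range]
        exact ⟨⟨by omega, hi⟩, Nat.lt_succ_self i, h⟩

/-- Induction on the number of ascending pairs. -/
theorem asc_induction (B : ℕ) {Q : (ℕ → R) → Prop}
    (h0 : ∀ x, (∀ i, i + 1 < B → x (i + 1) ≤ x i) → Q x)
    (h1 : ∀ x i, i + 1 < B → x i < x (i + 1) → Q (sw i x) → Q x) : ∀ x, Q x := by
  intro x
  induction hn : asc B x using Nat.strong_induction_on generalizing x with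
  | _ n ih =>
    subst hn
    by_cases hx : ∃ i, i + 1 < B ∧ x i < x (i + 1)
    · obtain ⟨i, hi, hlt⟩ := hx
      exact h1 x i hi hlt (ih _ (asc_sw_lt hi hlt) _ rfl)
    · push Not at hx
      exact h0 x hx

variable {P : Type*}

/-- the first ascent -/
def firstAsc (B : ℕ) (x : ℕ → R) (h : ∃ i, i + 1 < B ∧ x i < x (i + 1)) : ℕ := Nat.find h

lemma firstAsc_spec {B : ℕ} {x : ℕ → R} (h : ∃ i, i + 1 < B ∧ x i < x (i + 1)) :
    firstAsc B x h + 1 < B ∧ x (firstAsc B x h) < x (firstAsc B x h + 1) := Nat.find_spec h

lemma firstAsc_le {B : ℕ} {x : ℕ → R} (h : ∃ i, i + 1 < B ∧ x i < x (i + 1)) {i : ℕ}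
    (hi : i + 1 < B ∧ x i < x (i + 1)) : firstAsc B x h ≤ i := Nat.find_min' h hi

open Classical in
/-- The function on sequences which equals `base` on sequences without ascents at the positions
`i`, `i + 1 < B`, and otherwise satisfies `F x = D i (F (sw i x))` for the first ascent `i`
(and then for every ascent, if the `D i` satisfy the braid relations). -/
noncomputable def recF (D : ℕ → P → P) (base : (ℕ → R) → P) (B : ℕ) (x : ℕ → R) : P :=
  if h : ∃ i, i + 1 < B ∧ x i < x (i + 1) then
    D (firstAsc B x h) (recF D base B (sw (firstAsc B x h) x))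
  else base x
termination_by asc B x
decreasing_by exact asc_sw_lt (firstAsc_spec h).1 (firstAsc_spec h).2

/-- commutation and braid relations -/
structure Braid (D : ℕ → P → P) : Prop where
  comm : ∀ i j, i + 1 < j → ∀ p, D i (D j p) = D j (D i p)
  braid : ∀ i p, D i (D (i + 1) (D i p)) = D (i + 1) (D i (D (i + 1) p))

variable {D : ℕ → P → P} {base : (ℕ → R) → P} {B : ℕ}

lemma recF_base {x : ℕ → R} (h : ∀ i, i + 1 < B → x (i + 1) ≤ x i) :
    recF D base B x = base x := by
  rw [recF, dif_neg]
  push Not
  exact h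

theorem recF_step (hD : Braid D) : ∀ (x : ℕ → R) (i : ℕ), i + 1 < B → x i < x (i + 1) →
    recF D base B x = D i (recF D base B (sw i x)) := by
  classical
  intro x
  induction hn : asc B x using Nat.strong_induction_on generalizing x with
  | _ n ih =>
    subst hn
    intro i hi hlt
    have hex : ∃ i, i + 1 < B ∧ x i < x (i + 1) := ⟨i, hi, hlt⟩
    obtain ⟨k, hk⟩ : ∃ k, firstAsc B x hex = k := ⟨_, rfl⟩
    have hk1 : k + 1 < B := hk ▸ (firstAsc_spec hex).1
    have hk2 : x k < x (k + 1) := hk ▸ (firstAsc_spec hex).2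
    have hki : k ≤ i := hk ▸ firstAsc_le hex ⟨hi, hlt⟩
    have hF : recF D base B x = D k (recF D base B (sw k x)) := by
      have h0 : recF D base B x =
          D (firstAsc B x hex) (recF D base B (sw (firstAsc B x hex) x)) := by
        rw [recF, dif_pos hex]
      rw [hk] at h0
      exact h0
    rcases Nat.eq_or_lt_of_le hki with rfl | hlt'
    · exact hF
    have ak : asc B (sw k x) < asc B x := asc_sw_lt hk1 hk2
    have ai : asc B (sw i x) < asc B x := asc_sw_lt hi hlt
    rcases Nat.eq_or_lt_of_le hlt' with rfl | hfar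
    · -- `i = k + 1`
      have e1 : sw k x (k + 1) < sw k x (k + 1 + 1) := by
        rw [sw_right, sw_of_ne x (by omega) (by omega)]
        exact hk2.trans hlt
      have s1 := ih _ ak (sw k x) rfl (k + 1) hi e1
      have a1 : asc B (sw (k + 1) (sw k x)) < asc B x := (asc_sw_lt hi e1).trans ak
      have e2 : sw (k + 1) (sw k x) k < sw (k + 1) (sw k x) (k + 1) := by
        rw [sw_of_ne _ (by omega) (by omega), sw_left, sw_left, sw_of_ne x (by omega) (by omega)]
        exact hlt
      have s2 := ih _ a1 _ rfl k hk1 e2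
      have e3 : sw (k + 1) x k < sw (k + 1) x (k + 1) := by
        rw [sw_of_ne _ (by omega) (by omega), sw_left]
        exact hk2.trans hlt
      have s3 := ih _ ai (sw (k + 1) x) rfl k hk1 e3
      have a3 : asc B (sw k (sw (k + 1) x)) < asc B x := (asc_sw_lt hk1 e3).trans ai
      have e4 : sw k (sw (k + 1) x) (k + 1) < sw k (sw (k + 1) x) (k + 1 + 1) := by
        rw [sw_right, sw_of_ne _ (by omega) (by omega), sw_of_ne _ (by omega) (by omega), sw_right]
        exact hk2
      have s4 := ih _ a3 _ rfl (k + 1) hi e4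
      rw [hF, s1, s2, s3, s4, sw_braid, hD.braid]
    · -- `k + 1 < i`
      have e1 : sw k x i < sw k x (i + 1) := by
        rw [sw_of_ne _ (by omega) (by omega), sw_of_ne _ (by omega) (by omega)]
        exact hlt
      have s1 := ih _ ak (sw k x) rfl i hi e1
      have e2 : sw i x k < sw i x (k + 1) := by
        rw [sw_of_ne _ (by omega) (by omega), sw_of_ne _ (by omega) (by omega)]
        exact hk2
      have s2 := ih _ ai (sw i x) rfl k hk1 e2
      rw [hF, s1, s2, ← sw_comm x hfar, hD.comm k i hfar]

/-- If `x i = x (i + 1)` then `recF` is fixed by `D i`, provided `base` has this property. -/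
theorem recF_eq (hD : Braid D)
    (hb : ∀ (x : ℕ → R) (i : ℕ), i + 1 < B → (∀ j, j + 1 < B → x (j + 1) ≤ x j) →
      x i = x (i + 1) → D i (base x) = base x) :
    ∀ (x : ℕ → R) (i : ℕ), i + 1 < B → x i = x (i + 1) →
    D i (recF D base B x) = recF D base B x := by
  classical
  intro x
  induction hn : asc B x using Nat.strong_induction_on generalizing x with
  | _ n ih =>
    subst hn
    intro i hi heq
    by_cases hex : ∃ j, j + 1 < B ∧ x j < x (j + 1)
    · obtain ⟨j, hj, hlt⟩ := hex
      have aj := asc_sw_lt hj hlt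
      have sj := recF_step (base := base) hD x j hj hlt
      have hij : i ≠ j := by rintro rfl; exact absurd heq hlt.ne
      rcases lt_or_gt_of_ne hij with h | h
      · rcases Nat.eq_or_lt_of_le (Nat.succ_le_of_lt h) with h' | h'
        · -- `j = i + 1`
          have hj' : j = i + 1 := h'.symm
          subst hj'
          have e1 : sw (i + 1) x i < sw (i + 1) x (i + 1) := by
            rw [sw_of_ne _ (by omega) (by omega), sw_left, heq]
            exact hlt
          have s1 := recF_step (base := base) hD _ i hi e1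
          have a1 := asc_sw_lt hi e1
          have e2 : sw i (sw (i + 1) x) (i + 1) = sw i (sw (i + 1) x) (i + 1 + 1) := by
            rw [sw_right, sw_of_ne _ (by omega) (by omega), sw_of_ne _ (by omega) (by omega),
              sw_right]
            exact heq
          have s2 := ih _ (a1.trans aj) _ rfl (i + 1) hj e2
          rw [sj, s1, hD.braid, s2]
        · have e1 : sw j x i = sw j x (i + 1) := by
            rw [sw_of_ne _ (by omega) (by omega), sw_of_ne _ (by omega) (by omega)]
            exact heq
          have s1 := ih _ aj _ rfl i hi e1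
          rw [sj, hD.comm i j h', s1]
      · rcases Nat.eq_or_lt_of_le (Nat.succ_le_of_lt h) with h' | h'
        · -- `i = j + 1`
          have hi' : i = j + 1 := h'.symm
          subst hi'
          have e1 : sw j x (j + 1) < sw j x (j + 1 + 1) := by
            rw [sw_right, sw_of_ne _ (by omega) (by omega), ← heq]
            exact hlt
          have s1 := recF_step (base := base) hD _ (j + 1) hi e1
          have a1 := asc_sw_lt hi e1
          have e2 : sw (j + 1) (sw j x) j = sw (j + 1) (sw j x) (j + 1) := by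
            rw [sw_of_ne _ (by omega) (by omega), sw_left, sw_left,
              sw_of_ne _ (by omega) (by omega)]
            exact heq
          have s2 := ih _ (a1.trans aj) _ rfl j hj e2
          rw [sj, s1, ← hD.braid, s2]
        · have e1 : sw j x i = sw j x (i + 1) := by
            rw [sw_of_ne _ (by omega) (by omega), sw_of_ne _ (by omega) (by omega)]
            exact heq
          have s1 := ih _ aj _ rfl i hi e1
          rw [sj, ← hD.comm j i h', s1]
    · push Not at hex
      rw [recF_base hex]
      exact hb x i hi hex heq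

end asc

/-- Induction on the number of ascending pairs, for sequences of natural numbers. -/
theorem nat_asc_induction (B : ℕ) {Q : (ℕ → ℕ) → Prop}
    (h0 : ∀ x, (∀ i, i + 1 < B → x (i + 1) ≤ x i) → Q x)
    (h1 : ∀ x i, i + 1 < B → x i < x (i + 1) → Q (sw i x) → Q x) : ∀ x, Q x :=
  asc_induction B h0 h1

end Pool.Agent.Lib.MP_26ab9b_co
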