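import Mathlib
import Pool.Agent.Lib.MP_26ab9b_co.Defs
import Pool.Agent.Lib.MP_26ab9b_co.Seq

/-!
# Divided differences and Demazure operators (MP_26ab9b_co)

Variables are indexed from `0`: the variable `x_{i+1}` of the problem is `X i`.
-/

namespace Pool.Agent.Lib.MP_26ab9b_co

open MvPolynomial

lemma divDiff_spec (i : ℕ) (f : Poly) :
    (X i - X (i + 1)) * divDiff i f = f - swapVars i f :=
  (Classical.choose_spec (dvd_sub_swapVars i f)).symm

@[simp] lemma swapVars_X_self (i : ℕ) : swapVars i (X i) = X (i + 1) := by simp [swapVars]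
@[simp] lemma swapVars_X_succ (i : ℕ) : swapVars i (X (i + 1)) = X i := by simp [swapVars]
lemma swapVars_X_of_ne {i j : ℕ} (h1 : j ≠ i) (h2 : j ≠ i + 1) : swapVars i (X j) = X j := by
  simp [swapVars, Equiv.swap_apply_of_ne_of_ne h1 h2]

@[simp] lemma swapVars_swapVars (i : ℕ) (f : Poly) : swapVars i (swapVars i f) = f := by
  simp only [swapVars, rename_rename]
  have : (Equiv.swap i (i + 1) : ℕ → ℕ) ∘ (Equiv.swap i (i + 1)) = id := by
    funext j; simp
  rw [this, rename_id_apply]

lemma demazure_spec (i : ℕ) (f : Poly) :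
    (X i - X (i + 1)) * demazure i f = X i * f - X (i + 1) * swapVars i f := by
  rw [demazure, divDiff_spec, map_mul, swapVars_X_self]

lemma sub_ne_zero' {i j : ℕ} (h : i ≠ j) : (X i - X j : Poly) ≠ 0 := by
  rw [sub_ne_zero]
  intro h'
  exact h (X_injective h')

lemma divDiff_unique {i : ℕ} {f g : Poly} (h : (X i - X (i + 1)) * g = f - swapVars i f) :
    divDiff i f = g :=
  mul_left_cancel₀ (sub_ne_zero' (Nat.ne_of_lt (Nat.lt_succ_self i))) (by rw [divDiff_spec, h])

lemma demazure_unique {i : ℕ} {f g : Poly}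
    (h : (X i - X (i + 1)) * g = X i * f - X (i + 1) * swapVars i f) : demazure i f = g :=
  mul_left_cancel₀ (sub_ne_zero' (Nat.ne_of_lt (Nat.lt_succ_self i))) (by rw [demazure_spec, h])

lemma divDiff_add (i : ℕ) (f g : Poly) : divDiff i (f + g) = divDiff i f + divDiff i g := by
  apply divDiff_unique
  rw [mul_add, divDiff_spec, divDiff_spec, map_add]; ring

lemma divDiff_zero (i : ℕ) : divDiff i 0 = 0 := by
  apply divDiff_unique; simp

lemma demazure_add (i : ℕ) (f g : Poly) : demazure i (f + g) = demazure i f + demazure i g := by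
  rw [demazure, mul_add, divDiff_add]; rfl

lemma demazure_zero (i : ℕ) : demazure i 0 = 0 := by
  rw [demazure, mul_zero, divDiff_zero]

/-- `∂_i` is linear over the polynomials symmetric in `x_i, x_{i+1}`. -/
lemma divDiff_mul_symm {i : ℕ} {g : Poly} (hg : swapVars i g = g) (f : Poly) :
    divDiff i (g * f) = g * divDiff i f := by
  apply divDiff_unique
  rw [map_mul, hg, mul_left_comm, divDiff_spec]; ring

lemma demazure_mul_symm {i : ℕ} {g : Poly} (hg : swapVars i g = g) (f : Poly) :
    demazure i (g * f) = g * demazure i f := by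
  rw [demazure, mul_left_comm, divDiff_mul_symm hg]; rfl

/-- `∂_i f` is symmetric in `x_i, x_{i+1}`. -/
lemma swapVars_divDiff (i : ℕ) (f : Poly) : swapVars i (divDiff i f) = divDiff i f := by
  apply mul_left_cancel₀ (sub_ne_zero' (Nat.ne_of_lt (Nat.lt_succ_self i)))
  have h := congrArg (swapVars i) (divDiff_spec i f)
  rw [map_mul, map_sub, map_sub, swapVars_X_self, swapVars_X_succ, swapVars_swapVars] at h
  rw [divDiff_spec]
  linear_combination (-1 : Poly) * h

lemma swapVars_demazure (i : ℕ) (f : Poly) : swapVars i (demazure i f) = demazure i f :=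
  swapVars_divDiff i _

lemma demazure_of_symm {i : ℕ} {f : Poly} (hf : swapVars i f = f) : demazure i f = f := by
  apply demazure_unique
  rw [hf]; ring

@[simp] lemma demazure_demazure (i : ℕ) (f : Poly) : demazure i (demazure i f) = demazure i f :=
  demazure_of_symm (swapVars_demazure i f)

/-- `x_i π_i f = π_i (x_{i+1} f) + x_i f` -/
lemma X_mul_demazure (i : ℕ) (f : Poly) :
    X i * demazure i f = demazure i (X (i + 1) * f) + X i * f := by
  apply mul_left_cancel₀ (sub_ne_zero' (Nat.ne_of_lt (Nat.lt_succ_self i)))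
  rw [mul_add, demazure_spec, mul_left_comm, demazure_spec, map_mul, swapVars_X_succ]
  ring

/-- `x_{i+1} π_i f = π_i (x_i f) - x_i f` -/
lemma X_succ_mul_demazure (i : ℕ) (f : Poly) :
    X (i + 1) * demazure i f = demazure i (X i * f) - X i * f := by
  apply mul_left_cancel₀ (sub_ne_zero' (Nat.ne_of_lt (Nat.lt_succ_self i)))
  rw [mul_sub, demazure_spec, mul_left_comm, demazure_spec, map_mul, swapVars_X_self]
  ring

lemma swapVars_comm {i j : ℕ} (h : i + 1 < j) (f : Poly) :
    swapVars i (swapVars j f) = swapVars j (swapVars i f) := by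
  simp only [swapVars, rename_rename]
  congr 2
  funext k
  have h1 := congrFun (sw_comm (fun n : ℕ => n) h) k
  simp only [sw] at h1
  exact h1.symm

lemma swapVars_braid (i : ℕ) (f : Poly) :
    swapVars i (swapVars (i + 1) (swapVars i f)) =
      swapVars (i + 1) (swapVars i (swapVars (i + 1) f)) := by
  simp only [swapVars, rename_rename]
  congr 2
  funext k
  have h1 := congrFun (sw_braid (fun n : ℕ => n) i) k
  simp only [sw] at h1
  exact h1

lemma divDiff_comm {i j : ℕ} (h : i + 1 < j) (f : Poly) :
    divDiff i (divDiff j f) = divDiff j (divDiff i f) := by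
  have hi := sub_ne_zero' (Nat.ne_of_lt (Nat.lt_succ_self i))
  have hj := sub_ne_zero' (Nat.ne_of_lt (Nat.lt_succ_self j))
  apply mul_left_cancel₀ hi
  apply mul_left_cancel₀ hj
  have e1 : swapVars i (X j - X (j + 1)) = X j - X (j + 1) := by
    rw [map_sub, swapVars_X_of_ne (by omega) (by omega), swapVars_X_of_ne (by omega) (by omega)]
  have e2 : swapVars j (X i - X (i + 1)) = X i - X (i + 1) := by
    rw [map_sub, swapVars_X_of_ne (by omega) (by omega), swapVars_X_of_ne (by omega) (by omega)]
  have a1 := divDiff_spec j f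
  have a2 := congrArg (swapVars i) a1
  rw [map_mul, e1, map_sub] at a2
  have b1 := divDiff_spec i f
  have b2 := congrArg (swapVars j) b1
  rw [map_mul, e2, map_sub] at b2
  have c1 := divDiff_spec i (divDiff j f)
  have c2 := divDiff_spec j (divDiff i f)
  rw [swapVars_comm h] at a2
  linear_combination (X j - X (j + 1)) * c1 - (X i - X (i + 1)) * c2 + a1 - a2 - b1 + b2

lemma demazure_comm {i j : ℕ} (h : i + 1 < j) (f : Poly) :
    demazure i (demazure j f) = demazure j (demazure i f) := by
  have e1 : swapVars j (X i) = X i := swapVars_X_of_ne (by omega) (by omega)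
  have e2 : swapVars i (X j) = X j := swapVars_X_of_ne (by omega) (by omega)
  rw [demazure, demazure, ← divDiff_mul_symm e1, divDiff_comm h, demazure, demazure,
    ← divDiff_mul_symm e2, mul_left_comm]

lemma divDiff_neg (i : ℕ) (f : Poly) : divDiff i (-f) = - divDiff i f := by
  apply divDiff_unique
  rw [map_neg, mul_neg, divDiff_spec]; ring

lemma divDiff_of_symm {i : ℕ} {f : Poly} (hf : swapVars i f = f) : divDiff i f = 0 := by
  apply divDiff_unique
  rw [hf]; ring

lemma divDiff_divDiff (i : ℕ) (f : Poly) : divDiff i (divDiff i f) = 0 :=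
  divDiff_of_symm (swapVars_divDiff i f)

lemma X_succ_mul_divDiff (i : ℕ) (f : Poly) :
    X (i + 1) * divDiff i f = divDiff i (X i * f) - f := by
  apply mul_left_cancel₀ (sub_ne_zero' (Nat.ne_of_lt (Nat.lt_succ_self i)))
  rw [mul_sub, divDiff_spec, mul_left_comm, divDiff_spec, map_mul, swapVars_X_self]
  ring

/-- the alternating sum over the symmetric group on three letters -/
noncomputable def alt3 (i : ℕ) (f : Poly) : Poly :=
  f - swapVars i f - swapVars (i + 1) f + swapVars i (swapVars (i + 1) f) +
    swapVars (i + 1) (swapVars i f) - swapVars i (swapVars (i + 1) (swapVars i f))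

section
variable (i : ℕ)

lemma sv1 : swapVars i (X (i + 1 + 1)) = X (i + 1 + 1) := swapVars_X_of_ne (by omega) (by omega)
lemma sv2 : swapVars (i + 1) (X i) = X i := swapVars_X_of_ne (by omega) (by omega)

lemma braid_left (f : Poly) : (X i - X (i + 1)) * (X (i + 1) - X (i + 1 + 1)) *
    (X i - X (i + 1 + 1)) * divDiff i (divDiff (i + 1) (divDiff i f)) = alt3 i f := by
  set g := divDiff i f with hg
  set h := divDiff (i + 1) g with hh
  have g1 : (X i - X (i + 1)) * g = f - swapVars i f := divDiff_spec i f
  have gs : swapVars i g = g := swapVars_divDiff i f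
  have h1 : (X (i + 1) - X (i + 1 + 1)) * h = g - swapVars (i + 1) g := divDiff_spec (i + 1) g
  have k1 : (X i - X (i + 1)) * divDiff i h = h - swapVars i h := divDiff_spec i h
  have h2 := congrArg (swapVars i) h1
  rw [map_mul, map_sub, map_sub, swapVars_X_succ, sv1, gs] at h2
  have g2 := congrArg (swapVars (i + 1)) g1
  rw [map_mul, map_sub, map_sub, swapVars_X_self, sv2] at g2
  have g3 := congrArg (swapVars i) g2
  rw [map_mul, map_sub, map_sub, swapVars_X_self, sv1] at g3
  unfold alt3
  linear_combination (X (i + 1) - X (i + 1 + 1)) * (X i - X (i + 1 + 1)) * k1 +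
    (X i - X (i + 1 + 1)) * h1 - (X (i + 1) - X (i + 1 + 1)) * h2 + g1 - g2 + g3

lemma braid_right (f : Poly) : (X i - X (i + 1)) * (X (i + 1) - X (i + 1 + 1)) *
    (X i - X (i + 1 + 1)) * divDiff (i + 1) (divDiff i (divDiff (i + 1) f)) = alt3 i f := by
  set g := divDiff (i + 1) f with hg
  set h := divDiff i g with hh
  have g1 : (X (i + 1) - X (i + 1 + 1)) * g = f - swapVars (i + 1) f := divDiff_spec (i + 1) f
  have gs : swapVars (i + 1) g = g := swapVars_divDiff (i + 1) f
  have h1 : (X i - X (i + 1)) * h = g - swapVars i g := divDiff_spec i g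
  have k1 : (X (i + 1) - X (i + 1 + 1)) * divDiff (i + 1) h = h - swapVars (i + 1) h :=
    divDiff_spec (i + 1) h
  have h2 := congrArg (swapVars (i + 1)) h1
  rw [map_mul, map_sub, map_sub, swapVars_X_self, sv2, gs] at h2
  have g2 := congrArg (swapVars i) g1
  rw [map_mul, map_sub, map_sub, swapVars_X_succ, sv1] at g2
  have g3 := congrArg (swapVars (i + 1)) g2
  rw [map_mul, map_sub, map_sub, swapVars_X_succ, sv2] at g3
  unfold alt3
  rw [swapVars_braid]
  linear_combination (X i - X (i + 1)) * (X i - X (i + 1 + 1)) * k1 +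
    (X i - X (i + 1 + 1)) * h1 - (X i - X (i + 1)) * h2 + g1 - g2 + g3

lemma divDiff_braid (f : Poly) : divDiff i (divDiff (i + 1) (divDiff i f)) =
    divDiff (i + 1) (divDiff i (divDiff (i + 1) f)) := by
  have h : (X i - X (i + 1)) * (X (i + 1) - X (i + 1 + 1)) * (X i - X (i + 1 + 1)) ≠ (0 : Poly) :=
    mul_ne_zero (mul_ne_zero (sub_ne_zero' (by omega)) (sub_ne_zero' (by omega)))
      (sub_ne_zero' (by omega))
  apply mul_left_cancel₀ h
  rw [braid_left, braid_right]

lemma demazure_braid (f : Poly) : demazure i (demazure (i + 1) (demazure i f)) =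
    demazure (i + 1) (demazure i (demazure (i + 1) f)) := by
  -- `π_i π_{i+1} π_i f = ∂_i ∂_{i+1} ∂_i (x_i^2 x_{i+1} f)` and similarly on the other side
  have l1 : demazure i (demazure (i + 1) (demazure i f)) =
      divDiff i (divDiff (i + 1) (divDiff i (X i ^ 2 * X (i + 1) * f))) := by
    have e1 : swapVars i (X i * X (i + 1)) = X i * X (i + 1) := by
      rw [map_mul, swapVars_X_self, swapVars_X_succ, mul_comm]
    have e2 : swapVars (i + 1) (X i) = X i := sv2 i
    rw [demazure, demazure, ← divDiff_mul_symm e2, demazure, ← mul_assoc, ← divDiff_mul_symm e1]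
    congr 3
    ring
  have l2 : demazure (i + 1) (demazure i (demazure (i + 1) f)) =
      divDiff (i + 1) (divDiff i (divDiff (i + 1) (X i ^ 2 * X (i + 1) * f))) := by
    have e1 : swapVars (i + 1) (X i) = X i := sv2 i
    have h1 : demazure i (demazure (i + 1) f) =
        divDiff i (divDiff (i + 1) (X i * X (i + 1) * f)) := by
      rw [demazure, demazure, ← divDiff_mul_symm e1, ← mul_assoc]
    rw [h1, demazure, X_succ_mul_divDiff, sub_eq_add_neg, divDiff_add, divDiff_neg,
      divDiff_divDiff, neg_zero, add_zero, ← divDiff_mul_symm e1]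
    congr 3
    ring
  rw [l1, l2, divDiff_braid]

end

end Pool.Agent.Lib.MP_26ab9b_co
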