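import Mathlib
import Pool.Agent.Lib.MP_26ab9b_co.Ops

/-!
# Monomials, the functions `Phi` and `K`, the insertion formula (MP_26ab9b_co)
-/

namespace Pool.Agent.Lib.MP_26ab9b_co

open MvPolynomial Finset

/-- the monomial `∏_{j < B} x_j ^ (x j)` -/
noncomputable def mono (B : ℕ) (x : ℕ → ℕ) : Poly := ∏ j ∈ range B, X j ^ x j

/-- `x_0 x_1 ⋯ x_{p-1}` -/
noncomputable def omega (p : ℕ) : Poly := ∏ j ∈ range p, X j

lemma omega_zero : omega 0 = 1 := by simp [omega]
lemma omega_succ (p : ℕ) : omega (p + 1) = omega p * X p := by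
  rw [omega, prod_range_succ]; rfl

lemma mono_succ (B : ℕ) (x : ℕ → ℕ) : mono (B + 1) x = mono B x * X B ^ x B := by
  rw [mono, prod_range_succ]; rfl

lemma mono_congr {B : ℕ} {x y : ℕ → ℕ} (h : ∀ j, j < B → x j = y j) : mono B x = mono B y := by
  unfold mono
  exact prod_congr rfl (fun j hj => by rw [h j (mem_range.1 hj)])

lemma mono_add (B : ℕ) (x y : ℕ → ℕ) : mono B (fun j => x j + y j) = mono B x * mono B y := by
  unfold mono
  rw [← prod_mul_distrib]
  exact prod_congr rfl (fun j _ => pow_add _ _ _)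

lemma mono_const (B m : ℕ) : mono B (fun _ => m) = omega B ^ m := by
  unfold mono omega
  rw [prod_pow]

lemma swap_lt {B i a : ℕ} (hi : i + 1 < B) (ha : a < B) : Equiv.swap i (i + 1) a < B := by
  by_cases h1 : a = i
  · rw [h1, Equiv.swap_apply_left]; exact hi
  by_cases h2 : a = i + 1
  · rw [h2, Equiv.swap_apply_right]; omega
  rw [Equiv.swap_apply_of_ne_of_ne h1 h2]; exact ha

lemma swapVars_mono {B i : ℕ} (hi : i + 1 < B) (x : ℕ → ℕ) :
    swapVars i (mono B x) = mono B (sw i x) := by
  unfold mono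
  rw [map_prod]
  refine prod_equiv (Equiv.swap i (i + 1)) ?_ ?_
  · intro a
    rw [mem_range, mem_range]
    constructor
    · exact swap_lt hi
    · intro h
      have := swap_lt hi h
      rwa [Equiv.swap_apply_self] at this
  · intro a _
    rw [map_pow]
    simp only [swapVars, rename_X, sw, Equiv.swap_apply_self]

lemma swapVars_mono_of_le {B i : ℕ} (hi : B ≤ i) (x : ℕ → ℕ) :
    swapVars i (mono B x) = mono B x := by
  unfold mono
  rw [map_prod]
  refine prod_congr rfl (fun a ha => ?_)
  rw [mem_range] at ha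
  rw [map_pow, swapVars_X_of_ne (by omega) (by omega)]

lemma swapVars_omega {p i : ℕ} (h : p ≠ i + 1) : swapVars i (omega p) = omega p := by
  have e : omega p = mono p (fun _ => 1) := by rw [mono_const, pow_one]
  rcases lt_or_gt_of_ne h with h' | h'
  · rw [e, swapVars_mono_of_le (by omega)]
  · rw [e, swapVars_mono h']
    congr 1

/-- the exponent vector with the entries at `i`, `i+1` set to zero -/
def rest (i : ℕ) (x : ℕ → ℕ) : ℕ → ℕ := fun j => if j = i ∨ j = i + 1 then 0 else x j

lemma sw_rest (i : ℕ) (x : ℕ → ℕ) : sw i (rest i x) = rest i x := by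
  funext k
  by_cases h1 : k = i
  · subst h1; simp [rest]
  by_cases h2 : k = i + 1
  · subst h2; simp [rest]
  rw [sw_of_ne _ h1 h2]

lemma mono_eq_rest {B i : ℕ} (hi : i + 1 < B) (x : ℕ → ℕ) :
    mono B x = X i ^ x i * X (i + 1) ^ x (i + 1) * mono B (rest i x) := by
  have h1 : ∀ f : ℕ → Poly, ∏ j ∈ range B, f j =
      f i * (f (i + 1) * ∏ j ∈ ((range B).erase i).erase (i + 1), f j) := by
    intro f
    rw [mul_prod_erase _ _ (by simp; omega), mul_prod_erase _ _ (by simp; omega)]
  unfold mono
  rw [h1, h1 (fun j => X j ^ rest i x j)]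
  have h2 : ∏ j ∈ ((range B).erase i).erase (i + 1), (X j : Poly) ^ x j =
      ∏ j ∈ ((range B).erase i).erase (i + 1), (X j : Poly) ^ rest i x j := by
    refine prod_congr rfl (fun j hj => ?_)
    rw [mem_erase, mem_erase] at hj
    rw [rest, if_neg (by tauto)]
  rw [h2]
  simp [rest]
  ring

lemma swapVars_mono_rest {B i : ℕ} (hi : i + 1 < B) (x : ℕ → ℕ) :
    swapVars i (mono B (rest i x)) = mono B (rest i x) := by
  rw [swapVars_mono hi, sw_rest]

lemma swapVars_mono_of_eq {B i : ℕ} (hi : i + 1 < B) {x : ℕ → ℕ} (h : x i = x (i + 1)) :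
    swapVars i (mono B x) = mono B x := by
  rw [swapVars_mono hi]
  congr 1
  funext k
  by_cases h1 : k = i
  · subst h1; rw [sw_left, h]
  by_cases h2 : k = i + 1
  · subst h2; rw [sw_right, h]
  rw [sw_of_ne _ h1 h2]

lemma demazure_mono_of_eq {B i : ℕ} (hi : i + 1 < B) {x : ℕ → ℕ} (h : x i = x (i + 1)) :
    demazure i (mono B x) = mono B x :=
  demazure_of_symm (swapVars_mono_of_eq hi h)

lemma demazure_X_succ (i : ℕ) : demazure i (X (i + 1)) = 0 := by
  apply demazure_unique
  rw [swapVars_X_succ]; ring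

lemma demazure_mono_of_succ {B i : ℕ} (hi : i + 1 < B) {x : ℕ → ℕ} (h : x (i + 1) = x i + 1) :
    demazure i (mono B x) = 0 := by
  rw [mono_eq_rest hi, h]
  have e : (X i ^ x i * X (i + 1) ^ (x i + 1) * mono B (rest i x) : Poly) =
      ((X i * X (i + 1)) ^ x i * mono B (rest i x)) * X (i + 1) := by ring
  rw [e, demazure_mul_symm, demazure_X_succ, mul_zero]
  rw [map_mul, swapVars_mono_rest hi, map_pow, map_mul, swapVars_X_self, swapVars_X_succ,
    mul_comm (X (i + 1) : Poly)]

/-! ## `Phi` and `K` -/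

/-- `Phi B x`: it is `∏_{j<B} x_j ^ (x j)` if `x 0 ≥ x 1 ≥ … ≥ x (B-1)`, and
`∂_i (Phi B (s_i x))` if `x i < x (i+1)`, `i + 1 < B`. -/
noncomputable def Phi (B : ℕ) (x : ℕ → ℕ) : Poly := recF divDiff (mono B) B x

/-- `K B x`: it is `∏_{j<B} x_j ^ (x j)` if `x 0 ≥ x 1 ≥ … ≥ x (B-1)`, and
`π_i (K B (s_i x))` if `x i < x (i+1)`, `i + 1 < B`. -/
noncomputable def K (B : ℕ) (x : ℕ → ℕ) : Poly := recF demazure (mono B) B x

lemma braid_divDiff : Braid divDiff where
  comm := fun _ _ h p => divDiff_comm h p
  braid := fun i p => divDiff_braid i p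

lemma braid_demazure : Braid demazure where
  comm := fun _ _ h p => demazure_comm h p
  braid := fun i p => demazure_braid i p

lemma Phi_base {B : ℕ} {x : ℕ → ℕ} (h : ∀ i, i + 1 < B → x (i + 1) ≤ x i) :
    Phi B x = mono B x := recF_base h

lemma Phi_step {B : ℕ} {x : ℕ → ℕ} {i : ℕ} (hi : i + 1 < B) (h : x i < x (i + 1)) :
    Phi B x = divDiff i (Phi B (sw i x)) := recF_step braid_divDiff x i hi h

lemma K_base {B : ℕ} {x : ℕ → ℕ} (h : ∀ i, i + 1 < B → x (i + 1) ≤ x i) :
    K B x = mono B x := recF_base h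

lemma K_step {B : ℕ} {x : ℕ → ℕ} {i : ℕ} (hi : i + 1 < B) (h : x i < x (i + 1)) :
    K B x = demazure i (K B (sw i x)) := recF_step braid_demazure x i hi h

lemma K_eq {B : ℕ} {x : ℕ → ℕ} {i : ℕ} (hi : i + 1 < B) (h : x i = x (i + 1)) :
    demazure i (K B x) = K B x :=
  recF_eq braid_demazure (fun _ _ hi _ h => demazure_mono_of_eq hi h) x i hi h

lemma demazure_K_of_lt {B : ℕ} {x : ℕ → ℕ} {i : ℕ} (hi : i + 1 < B) (h : x i < x (i + 1)) :
    demazure i (K B x) = K B x := by
  rw [K_step hi h, demazure_demazure]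

lemma demazure_K_of_gt {B : ℕ} {x : ℕ → ℕ} {i : ℕ} (hi : i + 1 < B) (h : x (i + 1) < x i) :
    demazure i (K B x) = K B (sw i x) := by
  rw [K_step (x := sw i x) hi (by rw [sw_left, sw_right]; exact h), sw_sw]

lemma Phi_congr {B : ℕ} : ∀ x y : ℕ → ℕ, (∀ j, j < B → x j = y j) → Phi B x = Phi B y := by
  intro x
  induction x using nat_asc_induction B with
  | h0 x hx =>
    intro y hxy
    rw [Phi_base hx, Phi_base, mono_congr hxy]
    intro i hi
    rw [← hxy i (by omega), ← hxy (i + 1) hi]
    exact hx i hi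
  | h1 x i hi hlt ih =>
    intro y hxy
    rw [Phi_step hi hlt, Phi_step (x := y) (i := i) hi
      (by rw [← hxy i (by omega), ← hxy (i + 1) hi]; exact hlt)]
    rw [ih (sw i y) (fun j hj => hxy _ (swap_lt hi hj))]

lemma K_congr {B : ℕ} : ∀ x y : ℕ → ℕ, (∀ j, j < B → x j = y j) → K B x = K B y := by
  intro x
  induction x using nat_asc_induction B with
  | h0 x hx =>
    intro y hxy
    rw [K_base hx, K_base, mono_congr hxy]
    intro i hi
    rw [← hxy i (by omega), ← hxy (i + 1) hi]
    exact hx i hi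
  | h1 x i hi hlt ih =>
    intro y hxy
    rw [K_step hi hlt, K_step (x := y) (i := i) hi
      (by rw [← hxy i (by omega), ← hxy (i + 1) hi]; exact hlt)]
    rw [ih (sw i y) (fun j hj => hxy _ (swap_lt hi hj))]

lemma swapVars_omega_pow {B i m : ℕ} (hi : i + 1 < B) :
    swapVars i (omega B ^ m) = omega B ^ m := by
  rw [map_pow, swapVars_omega (by omega)]

lemma Phi_add (B m : ℕ) (x : ℕ → ℕ) : Phi B (fun j => x j + m) = omega B ^ m * Phi B x := by
  induction x using nat_asc_induction B with
  | h0 x hx =>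
    rw [Phi_base hx, Phi_base (fun i hi => Nat.add_le_add_right (hx i hi) m), mono_add, mono_const,
      mul_comm]
  | h1 x i hi hlt ih =>
    rw [Phi_step (x := fun j => x j + m) (i := i) hi (Nat.add_lt_add_right hlt m),
      Phi_step hi hlt, ← divDiff_mul_symm (swapVars_omega_pow hi), ← ih]
    rfl

lemma K_add (B m : ℕ) (x : ℕ → ℕ) : K B (fun j => x j + m) = omega B ^ m * K B x := by
  induction x using nat_asc_induction B with
  | h0 x hx =>
    rw [K_base hx, K_base (fun i hi => Nat.add_le_add_right (hx i hi) m), mono_add, mono_const,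
      mul_comm]
  | h1 x i hi hlt ih =>
    rw [K_step (x := fun j => x j + m) (i := i) hi (Nat.add_lt_add_right hlt m),
      K_step hi hlt, ← demazure_mul_symm (swapVars_omega_pow hi), ← ih]
    rfl

lemma swapVars_X_pow {B i m : ℕ} (hi : i + 1 < B) : swapVars i (X B ^ m) = X B ^ m := by
  rw [map_pow, swapVars_X_of_ne (by omega) (by omega)]

lemma Phi_last {B : ℕ} (x : ℕ → ℕ) : (∀ j, j < B → x B ≤ x j) →
    Phi (B + 1) x = X B ^ x B * Phi B x := by
  induction x using nat_asc_induction B with
  | h0 x hx =>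
    intro hB
    rw [Phi_base hx, Phi_base, mono_succ, mul_comm]
    intro i hi
    rcases Nat.lt_or_ge (i + 1) B with h | h
    · exact hx i h
    · have : i + 1 = B := by omega
      rw [this]
      exact hB i (by omega)
  | h1 x i hi hlt ih =>
    intro hB
    have e1 : sw i x B = x B := sw_of_ne _ (by omega) (by omega)
    rw [Phi_step (by omega) hlt, ih, e1, divDiff_mul_symm (swapVars_X_pow hi), ← Phi_step hi hlt]
    intro j hj
    rw [e1]
    exact hB _ (swap_lt hi hj)

lemma K_last {B : ℕ} (x : ℕ → ℕ) : (∀ j, j < B → x B ≤ x j) →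
    K (B + 1) x = X B ^ x B * K B x := by
  induction x using nat_asc_induction B with
  | h0 x hx =>
    intro hB
    rw [K_base hx, K_base, mono_succ, mul_comm]
    intro i hi
    rcases Nat.lt_or_ge (i + 1) B with h | h
    · exact hx i h
    · have : i + 1 = B := by omega
      rw [this]
      exact hB i (by omega)
  | h1 x i hi hlt ih =>
    intro hB
    have e1 : sw i x B = x B := sw_of_ne _ (by omega) (by omega)
    rw [K_step (by omega) hlt, ih, e1, demazure_mul_symm (swapVars_X_pow hi), ← K_step hi hlt]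
    intro j hj
    rw [e1]
    exact hB _ (swap_lt hi hj)

lemma K_succ_of_zero {B : ℕ} {x : ℕ → ℕ} (h : x B = 0) : K (B + 1) x = K B x := by
  rw [K_last x (fun j _ => by rw [h]; exact Nat.zero_le _), h, pow_zero, one_mul]

/-- the sequence `x` with the entry at position `p` removed -/
def skip {R : Type*} (p : ℕ) (x : ℕ → R) : ℕ → R := fun j => if j < p then x j else x (j + 1)

/-- `chain p d f = π_p π_{p+1} ⋯ π_{p+d-1} f` -/
noncomputable def chain : ℕ → ℕ → Poly → Poly
  | _, 0, f => f
  | p, d + 1, f => demazure p (chain (p + 1) d f)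

/-- The insertion formula: if `x p` is the smallest of `x 0, …, x (p + d)` then
`Phi` is obtained from the `Phi` of the sequence without that entry. -/
lemma Phi_insert : ∀ (d p : ℕ) (x : ℕ → ℕ), (∀ j, j < p + d + 1 → j ≠ p → x p < x j) →
    Phi (p + d + 1) x = omega p * chain p d (omega (p + d + 1) ^ x p *
      Phi (p + d) (fun j => skip p x j - (x p + 1))) := by
  intro d
  induction d with
  | zero =>
    intro p x hx
    simp only [add_zero] at hx ⊢
    rw [Phi_last x (fun j hj => (hx j (by omega) (by omega)).le)]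
    have e : Phi p x = Phi p (fun j => (skip p x j - (x p + 1)) + (x p + 1)) := by
      apply Phi_congr
      intro j hj
      have := hx j (by omega) (by omega)
      simp only [skip, if_pos hj]
      omega
    rw [e, Phi_add p (x p + 1) (fun j => skip p x j - (x p + 1))]
    simp only [chain]
    rw [omega_succ, mul_pow, pow_succ]
    ring
  | succ d ih =>
    intro p x hx
    have hlt : x p < x (p + 1) := hx (p + 1) (by omega) (by omega)
    have hi : p + 1 < p + (d + 1) + 1 := by omega
    rw [Phi_step hi hlt]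
    have h1 := ih (p + 1) (sw p x) (by
      intro j hj hne
      rw [sw_right]
      by_cases h : j = p
      · rw [h, sw_left]; exact hlt
      · rw [sw_of_ne _ h hne]
        exact hx j (by omega) h)
    have e1 : p + 1 + d + 1 = p + (d + 1) + 1 := by omega
    have e2 : p + 1 + d = p + (d + 1) := by omega
    have e3 : skip (p + 1) (sw p x) = skip p x := by
      funext j
      unfold skip
      by_cases h1 : j < p
      · rw [if_pos (by omega), if_pos h1, sw_of_ne _ (by omega) (by omega)]
      · rw [if_neg h1]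
        by_cases h2 : j = p
        · rw [if_pos (by omega), h2, sw_left]
        · rw [if_neg (by omega), sw_of_ne _ (by omega) (by omega)]
    rw [e1, e2, e3, sw_right] at h1
    rw [h1, omega_succ, mul_assoc]
    have hs : swapVars p (omega p) = omega p := swapVars_omega (by omega)
    rw [divDiff_mul_symm hs]
    rfl

lemma swapVars_divDiff_far {i j : ℕ} (h : i + 1 < j) (f : Poly) :
    swapVars j (divDiff i f) = divDiff i (swapVars j f) := by
  symm
  apply divDiff_unique
  have h1 := congrArg (swapVars j) (divDiff_spec i f)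
  rw [map_mul, map_sub, map_sub, swapVars_X_of_ne (by omega) (by omega),
    swapVars_X_of_ne (by omega) (by omega)] at h1
  rw [h1, swapVars_comm h]

/-- `Phi B x` only involves the variables `x_0, …, x_{B-1}`. -/
lemma swapVars_Phi {B i : ℕ} (hi : B ≤ i) (x : ℕ → ℕ) : swapVars i (Phi B x) = Phi B x := by
  induction x using nat_asc_induction B with
  | h0 x hx => rw [Phi_base hx, swapVars_mono_of_le hi]
  | h1 x j hj hlt ih => rw [Phi_step hj hlt, swapVars_divDiff_far (by omega), ih]

end Pool.Agent.Lib.MP_26ab9b_co
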