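import Mathlib
import Pool.Agent.Lib.MP_26ab9b_co.Phi

/-!
# The product of `x_0 ⋯ x_{p-1}` with Demazure operators (MP_26ab9b_co)

`omega p * π_{i_1} ⋯ π_{i_l} f = ∑_v Π(v) (x^{S(v)} f)` for a finite multiset of sequences `v`, where
`S(v)` is the set of positions `j` with `v j < p`.
-/

namespace Pool.Agent.Lib.MP_26ab9b_co

open MvPolynomial Finset

/-- `π_i` as an additive map -/
noncomputable def demHom (i : ℕ) : Poly →+ Poly where
  toFun := demazure i
  map_zero' := demazure_zero i
  map_add' := demazure_add i

@[simp] lemma demHom_apply (i : ℕ) (f : Poly) : demHom i f = demazure i f := rfl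

/-- `word [i_1, …, i_l] f = π_{i_1} ⋯ π_{i_l} f` -/
noncomputable def word (I : List ℕ) (f : Poly) : Poly := I.foldr demazure f

@[simp] lemma word_nil (f : Poly) : word [] f = f := rfl
@[simp] lemma word_cons (i : ℕ) (I : List ℕ) (f : Poly) :
    word (i :: I) f = demazure i (word I f) := rfl
lemma word_append (I J : List ℕ) (f : Poly) : word (I ++ J) f = word I (word J f) := by
  simp [word, List.foldr_append]

/-- right multiplication of an operator by `π_i` -/
noncomputable def rmul (i : ℕ) (G : Poly →+ Poly) : Poly →+ Poly := G.comp (demHom i)

lemma braid_rmul : Braid rmul where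
  comm := by
    intro i j h G
    refine AddMonoidHom.ext (fun f => ?_)
    change G (demazure j (demazure i f)) = G (demazure i (demazure j f))
    rw [demazure_comm h]
  braid := by
    intro i G
    refine AddMonoidHom.ext (fun f => ?_)
    change G (demazure i (demazure (i + 1) (demazure i f))) =
      G (demazure (i + 1) (demazure i (demazure (i + 1) f)))
    rw [demazure_braid]

/-- `Π(v)`: the Demazure operator of the sequence `v` (thought of as a permutation in one-line
notation). -/
noncomputable def PiOp (B : ℕ) (v : ℕ → ℕ) : Poly →+ Poly :=
  recF (R := ℕᵒᵈ) rmul (fun _ => AddMonoidHom.id Poly) B (fun j => OrderDual.toDual (v j))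

lemma PiOp_base {B : ℕ} {v : ℕ → ℕ} (h : ∀ i, i + 1 < B → v i ≤ v (i + 1)) (f : Poly) :
    PiOp B v f = f := by
  unfold PiOp
  rw [recF_base]
  · rfl
  · intro i hi
    exact h i hi

lemma PiOp_step {B : ℕ} {v : ℕ → ℕ} {i : ℕ} (hi : i + 1 < B) (h : v (i + 1) < v i) (f : Poly) :
    PiOp B v f = PiOp B (sw i v) (demazure i f) := by
  unfold PiOp
  rw [recF_step braid_rmul _ i hi (by exact h)]
  rfl

/-- `Π(v) π_i = Π(v)` if `v` has a descent at `i` -/
lemma PiOp_demazure_of_gt {B : ℕ} {v : ℕ → ℕ} {i : ℕ} (hi : i + 1 < B) (h : v (i + 1) < v i)
    (f : Poly) : PiOp B v (demazure i f) = PiOp B v f := by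
  rw [PiOp_step hi h, PiOp_step hi h, demazure_demazure]

/-- `Π(v) π_i = Π(v s_i)` if `v` has an ascent at `i` -/
lemma PiOp_demazure_of_lt {B : ℕ} {v : ℕ → ℕ} {i : ℕ} (hi : i + 1 < B) (h : v i < v (i + 1))
    (f : Poly) : PiOp B v (demazure i f) = PiOp B (sw i v) f := by
  rw [PiOp_step (v := sw i v) hi (by rw [sw_left, sw_right]; exact h), sw_sw]

/-- `Π(v)` is a product of operators `π_i` -/
lemma exists_word_PiOp (B : ℕ) (v : ℕ → ℕ) :
    ∃ I : List ℕ, (∀ i ∈ I, i + 1 < B) ∧ ∀ f, PiOp B v f = word I f := by
  have key : ∀ x : ℕ → ℕᵒᵈ, ∃ I : List ℕ, (∀ i ∈ I, i + 1 < B) ∧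
      ∀ f, PiOp B (fun j => OrderDual.ofDual (x j)) f = word I f := by
    refine asc_induction B (Q := fun x => ∃ I : List ℕ, (∀ i ∈ I, i + 1 < B) ∧
      ∀ f, PiOp B (fun j => OrderDual.ofDual (x j)) f = word I f) ?_ ?_
    · intro x hx
      exact ⟨[], by simp, fun f => PiOp_base (fun i hi => hx i hi) f⟩
    · rintro x i hi hlt ⟨I, hI, h⟩
      refine ⟨I ++ [i], ?_, ?_⟩
      · intro j hj
        rw [List.mem_append, List.mem_singleton] at hj
        rcases hj with hj | rfl
        · exact hI j hj
        · exact hi
      · intro f
        rw [PiOp_step (v := fun j => OrderDual.ofDual (x j)) hi hlt, word_append]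
        exact h _
  exact key (fun j => OrderDual.toDual (v j))

/-- the indicator function of `S(v)` -/
def chi (p : ℕ) (v : ℕ → ℕ) : ℕ → ℕ := fun j => if v j < p then 1 else 0

lemma sw_chi (p i : ℕ) (v : ℕ → ℕ) : sw i (chi p v) = chi p (sw i v) := rfl

lemma rest_chi (p i : ℕ) (v : ℕ → ℕ) : rest i (chi p (sw i v)) = rest i (chi p v) := by
  funext j
  unfold rest
  by_cases h : j = i ∨ j = i + 1
  · rw [if_pos h, if_pos h]
  · rw [if_neg h, if_neg h]
    push Not at h
    simp only [chi]
    rw [sw_of_ne _ h.1 h.2]

/-- The multiplication lemma. -/
theorem omega_mul_word (B p : ℕ) (hp : p ≤ B) (I : List ℕ) (hI : ∀ i ∈ I, i + 1 < B) :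
    ∃ V : List (ℕ → ℕ), (∀ v ∈ V, Function.Injective v) ∧
      ∀ f, omega p * word I f = (V.map (fun v => PiOp B v (mono B (chi p v) * f))).sum := by
  induction I using List.reverseRecOn with
  | nil =>
    refine ⟨[id], by simp [Function.injective_id], fun f => ?_⟩
    rw [List.map_singleton, List.sum_singleton, PiOp_base (v := id) (fun i _ => Nat.le_succ i),
      word_nil]
    congr 1
    obtain ⟨d, rfl⟩ := Nat.exists_eq_add_of_le hp
    unfold omega mono
    rw [prod_range_add]
    have h1 : ∏ x ∈ range p, (X x : Poly) ^ chi p id x = ∏ x ∈ range p, X x := by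
      refine prod_congr rfl (fun j hj => ?_)
      rw [mem_range] at hj
      simp [chi, hj]
    have h2 : ∏ x ∈ range d, (X (p + x) : Poly) ^ chi p id (p + x) = 1 := by
      apply prod_eq_one
      intro j _
      simp [chi]
    rw [h1, h2, mul_one]
  | append_singleton I i ih =>
    obtain ⟨V, hV, h⟩ := ih (fun j hj => hI j (List.mem_append_left _ hj))
    have hi : i + 1 < B := hI i (by simp)
    -- the terms replacing `v`
    let T : (ℕ → ℕ) → List (ℕ → ℕ) := fun v =>
      if (v i < p ↔ v (i + 1) < p) then (if v i < v (i + 1) then [sw i v] else [v])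
      else if v i < p then [sw i v, v] else []
    refine ⟨V.flatMap T, ?_, ?_⟩
    · intro v hv
      rw [List.mem_flatMap] at hv
      obtain ⟨u, hu, hvu⟩ := hv
      have hinj := hV u hu
      have hsw : Function.Injective (sw i u) := hinj.comp (Equiv.injective _)
      simp only [T] at hvu
      split_ifs at hvu
      · rw [List.mem_singleton] at hvu; rw [hvu]; exact hsw
      · rw [List.mem_singleton] at hvu; rw [hvu]; exact hinj
      · rw [List.mem_cons, List.mem_singleton] at hvu
        rcases hvu with rfl | rfl
        · exact hsw
        · exact hinj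
      · simp at hvu
    · intro f
      rw [word_append, word_cons, word_nil, h]
      have hterm : ∀ v ∈ V, PiOp B v (mono B (chi p v) * demazure i f) =
          ((T v).map (fun v => PiOp B v (mono B (chi p v) * f))).sum := by
        intro v hv
        have hne : v i ≠ v (i + 1) := fun h => absurd (hV v hv h) (by omega)
        by_cases hiff : (v i < p ↔ v (i + 1) < p)
        · have hchi : chi p v i = chi p v (i + 1) := by
            unfold chi
            simp only [hiff]
          have hswchi : chi p (sw i v) = chi p v := by
            rw [← sw_chi]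
            funext k
            by_cases h1 : k = i
            · subst h1; rw [sw_left, hchi]
            by_cases h2 : k = i + 1
            · subst h2; rw [sw_right, hchi]
            rw [sw_of_ne _ h1 h2]
          rw [← demazure_mul_symm (swapVars_mono_of_eq hi hchi)]
          by_cases hlt : v i < v (i + 1)
          · simp only [T, if_pos hiff, if_pos hlt, List.map_singleton, List.sum_singleton]
            rw [PiOp_demazure_of_lt hi hlt, hswchi]
          · simp only [T, if_pos hiff, if_neg hlt, List.map_singleton, List.sum_singleton]
            rw [PiOp_demazure_of_gt hi (by omega)]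
        · by_cases hip : v i < p
          · have hip' : ¬ v (i + 1) < p := by tauto
            have hlt : v i < v (i + 1) := by omega
            simp only [T, if_neg hiff, if_pos hip, List.map_cons, List.map_nil, List.sum_cons,
              List.sum_nil, add_zero]
            have hg := swapVars_mono_rest hi (chi p v)
            have e1 : mono B (chi p v) = X i * mono B (rest i (chi p v)) := by
              rw [mono_eq_rest hi (chi p v)]
              simp [chi, hip, hip']
            have e2 : mono B (chi p (sw i v)) = X (i + 1) * mono B (rest i (chi p v)) := by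
              rw [mono_eq_rest hi (chi p (sw i v)), rest_chi]
              simp [chi, hip, hip']
            have e3 : mono B (chi p v) * demazure i f =
                demazure i (mono B (chi p (sw i v)) * f) + mono B (chi p v) * f := by
              rw [e1, e2]
              have a1 : X i * mono B (rest i (chi p v)) * demazure i f =
                  mono B (rest i (chi p v)) * (X i * demazure i f) := by ring
              have a2 : X (i + 1) * mono B (rest i (chi p v)) * f =
                  mono B (rest i (chi p v)) * (X (i + 1) * f) := by ring
              rw [a1, a2, X_mul_demazure, demazure_mul_symm hg]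
              ring
            rw [e3, map_add, PiOp_demazure_of_lt hi hlt]
          · have hip' : v (i + 1) < p := by tauto
            have hgt : v (i + 1) < v i := by omega
            simp only [T, if_neg hiff, if_neg hip, List.map_nil, List.sum_nil]
            have hg := swapVars_mono_rest hi (chi p v)
            have e1 : mono B (chi p v) = X (i + 1) * mono B (rest i (chi p v)) := by
              rw [mono_eq_rest hi (chi p v)]
              simp [chi, hip, hip']
            have e3 : mono B (chi p v) * demazure i f =
                demazure i (mono B (rest i (chi p v)) * (X i * f)) -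
                  mono B (rest i (chi p v)) * (X i * f) := by
              rw [e1]
              have a1 : X (i + 1) * mono B (rest i (chi p v)) * demazure i f =
                  mono B (rest i (chi p v)) * (X (i + 1) * demazure i f) := by ring
              rw [a1, X_succ_mul_demazure, demazure_mul_symm hg]
              ring
            rw [e3, map_sub, PiOp_demazure_of_gt hi hgt, sub_self]
      rw [List.map_congr_left hterm]
      clear h hterm hV
      induction V with
      | nil => rfl
      | cons v V ihV =>
        rw [List.map_cons, List.sum_cons, List.flatMap_cons, List.map_append, List.sum_append, ihV]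

end Pool.Agent.Lib.MP_26ab9b_co
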