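import Mathlib
import Pool.Agent.Lib.MP_26ab9b_co.Mult

/-!
# Affine functions of `N` and stable families of polynomials (MP_26ab9b_co)
-/

namespace Pool.Agent.Lib.MP_26ab9b_co

open MvPolynomial Filter

/-- Affine functions `N ↦ N a + b`, ordered by their behaviour for large `N`. -/
abbrev Aff : Type := ℤ ×ₗ ℤ

/-- value at `N` -/
def ev (N : ℕ) (a : Aff) : ℤ := N * (ofLex a).1 + (ofLex a).2

/-- value at `N` as a natural number -/
def evN (N : ℕ) (a : Aff) : ℕ := (ev N a).toNat

/-- the constant `1` -/
def oneA : Aff := toLex (0, 1)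

lemma ev_add (N : ℕ) (a b : Aff) : ev N (a + b) = ev N a + ev N b := by
  simp only [ev, ofLex_add, Prod.fst_add, Prod.snd_add]; ring

lemma ev_sub (N : ℕ) (a b : Aff) : ev N (a - b) = ev N a - ev N b := by
  simp only [ev, ofLex_sub, Prod.fst_sub, Prod.snd_sub]; ring

lemma ev_zero (N : ℕ) : ev N 0 = 0 := by simp [ev]

lemma ev_oneA (N : ℕ) : ev N oneA = 1 := by simp [ev, oneA]

lemma ev_lt {a b : Aff} (h : a < b) : ∀ᶠ N in atTop, ev N a < ev N b := by
  rw [Prod.Lex.lt_iff] at h
  rcases h with h | ⟨h1, h2⟩
  · filter_upwards [eventually_gt_atTop (((ofLex a).2 - (ofLex b).2).toNat)] with N hN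
    have h1 : (ofLex a).2 - (ofLex b).2 < N := by
      have := Int.self_le_toNat ((ofLex a).2 - (ofLex b).2)
      have h3 : ((((ofLex a).2 - (ofLex b).2).toNat : ℕ) : ℤ) < N := by exact_mod_cast hN
      linarith
    have h2 : (N : ℤ) * 1 ≤ N * ((ofLex b).1 - (ofLex a).1) := by
      apply mul_le_mul_of_nonneg_left _ (by positivity)
      linarith [Int.add_one_le_iff.2 h]
    unfold ev
    linarith
  · filter_upwards with N
    unfold ev
    rw [h1]
    linarith

lemma ev_le {a b : Aff} (h : a ≤ b) : ∀ᶠ N in atTop, ev N a ≤ ev N b := by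
  rcases eq_or_lt_of_le h with rfl | h
  · exact Eventually.of_forall (fun _ => le_refl _)
  · exact (ev_lt h).mono (fun _ h => h.le)

lemma ev_nonneg {a : Aff} (h : 0 ≤ a) : ∀ᶠ N in atTop, 0 ≤ ev N a := by
  have := ev_le h
  simpa only [ev_zero] using this

lemma lt_of_ev_lt {a b : Aff} (h : ∃ᶠ N in atTop, ev N a < ev N b) : a < b := by
  by_contra hcon
  push Not at hcon
  exact h ((ev_le hcon).mono (fun _ h => not_lt.2 h))

lemma le_of_ev_le {a b : Aff} (h : ∃ᶠ N in atTop, ev N a ≤ ev N b) : a ≤ b := by
  by_contra hcon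
  push Not at hcon
  exact h ((ev_lt hcon).mono (fun _ h => not_le.2 h))

lemma evN_le {a b : Aff} (h : a ≤ b) : ∀ᶠ N in atTop, evN N a ≤ evN N b :=
  (ev_le h).mono (fun _ h => Int.toNat_le_toNat h)

lemma evN_lt {a b : Aff} (h : a < b) (hb : 0 ≤ a) : ∀ᶠ N in atTop, evN N a < evN N b := by
  filter_upwards [ev_lt h, ev_nonneg hb] with N h1 h2
  unfold evN
  omega

lemma evN_cast {a : Aff} (h : 0 ≤ a) : ∀ᶠ N in atTop, (evN N a : ℤ) = ev N a :=
  (ev_nonneg h).mono (fun _ h => Int.toNat_of_nonneg h)

lemma evN_add {a b : Aff} (ha : 0 ≤ a) (hb : 0 ≤ b) :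
    ∀ᶠ N in atTop, evN N (a + b) = evN N a + evN N b := by
  filter_upwards [ev_nonneg ha, ev_nonneg hb] with N h1 h2
  unfold evN
  rw [ev_add]
  omega

lemma evN_zero (N : ℕ) : evN N 0 = 0 := by simp [evN, ev_zero]

lemma sub_one_nonneg {a b : Aff} (h : b < a) : 0 ≤ a - b - oneA := by
  apply le_of_ev_le
  apply Eventually.frequently
  filter_upwards [ev_lt h] with N hN
  rw [ev_zero, ev_sub, ev_sub, ev_oneA]
  omega

lemma evN_sub_one {a b : Aff} (h : b < a) (hb : 0 ≤ b) :
    ∀ᶠ N in atTop, evN N (a - b - oneA) = evN N a - (evN N b + 1) := by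
  filter_upwards [ev_lt h, ev_nonneg hb] with N h1 h2
  unfold evN
  rw [ev_sub, ev_sub, ev_oneA]
  omega

lemma add_nonneg' {a b : Aff} (ha : 0 ≤ a) (hb : 0 ≤ b) : 0 ≤ a + b := by
  apply le_of_ev_le
  apply Eventually.frequently
  filter_upwards [ev_nonneg ha, ev_nonneg hb] with N h1 h2
  rw [ev_zero, ev_add]
  omega

lemma oneA_nonneg : 0 ≤ oneA := by
  apply le_of_ev_le
  apply Eventually.frequently
  filter_upwards with N
  rw [ev_zero, ev_oneA]
  omega

/-- evaluate a sequence of affine functions -/
def evS (N : ℕ) (x : ℕ → Aff) : ℕ → ℕ := fun j => evN N (x j)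

lemma evS_sw (N i : ℕ) (x : ℕ → Aff) : evS N (sw i x) = sw i (evS N x) := rfl

/-- sequences of affine functions which are eventually nonnegative and supported on `[0, h)` -/
structure Adm (h : ℕ) (x : ℕ → Aff) : Prop where
  nonneg : ∀ j, 0 ≤ x j
  supp : ∀ j, h ≤ j → x j = 0

lemma Adm.sw {h i : ℕ} (hi : i + 1 < h) {x : ℕ → Aff} (hx : Adm h x) : Adm h (sw i x) where
  nonneg := fun _ => hx.nonneg _
  supp := by
    intro j hj
    rw [sw_of_ne _ (by omega) (by omega)]
    exact hx.supp j hj

lemma Adm.mono {h h' : ℕ} (hh : h ≤ h') {x : ℕ → Aff} (hx : Adm h x) : Adm h' x where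
  nonneg := hx.nonneg
  supp := fun j hj => hx.supp j (hh.trans hj)

/-- A family of polynomials is stable if it is eventually a fixed nonnegative combination of
the `K` of fixed affine sequences. -/
def IsStable (h : ℕ) (f : ℕ → Poly) : Prop :=
  ∃ C : (ℕ → Aff) →₀ ℕ, (∀ α ∈ C.support, Adm h α) ∧
    ∀ᶠ N in atTop, f N = C.sum (fun α c => c • K h (evS N α))

lemma IsStable.congr {h : ℕ} {f g : ℕ → Poly} (hf : IsStable h f) (hfg : ∀ᶠ N in atTop, g N = f N) :
    IsStable h g := by
  obtain ⟨C, hC, hN⟩ := hf
  refine ⟨C, hC, ?_⟩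
  filter_upwards [hN, hfg] with N h1 h2
  rw [h2, h1]

lemma IsStable.zero (h : ℕ) : IsStable h (fun _ => 0) := by
  refine ⟨0, by simp, ?_⟩
  filter_upwards with N
  simp

lemma IsStable.add {h : ℕ} {f g : ℕ → Poly} (hf : IsStable h f) (hg : IsStable h g) :
    IsStable h (fun N => f N + g N) := by
  classical
  obtain ⟨C, hC, hN⟩ := hf
  obtain ⟨C', hC', hN'⟩ := hg
  refine ⟨C + C', ?_, ?_⟩
  · intro α hα
    rcases Finset.mem_union.1 (Finsupp.support_add hα) with h | h
    · exact hC α h
    · exact hC' α h
  · filter_upwards [hN, hN'] with N h1 h2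
    rw [h1, h2, Finsupp.sum_add_index']
    · intro α; simp
    · intro α a b; rw [add_smul]

lemma IsStable.single {h : ℕ} {α : ℕ → Aff} (hα : Adm h α) :
    IsStable h (fun N => K h (evS N α)) := by
  classical
  refine ⟨Finsupp.single α 1, ?_, ?_⟩
  · intro β hβ
    have := Finsupp.support_single_subset hβ
    rw [Finset.mem_singleton] at this
    rw [this]; exact hα
  · filter_upwards with N
    rw [Finsupp.sum_single_index] <;> simp

lemma IsStable.nsmul {h : ℕ} {f : ℕ → Poly} (hf : IsStable h f) (c : ℕ) :
    IsStable h (fun N => c • f N) := by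
  induction c with
  | zero => exact (IsStable.zero h).congr (Eventually.of_forall (fun N => by simp))
  | succ c ih =>
    exact (ih.add hf).congr (Eventually.of_forall (fun N => by rw [succ_nsmul]))

lemma IsStable.sum {h : ℕ} {ι : Type*} (s : Finset ι) {f : ι → ℕ → Poly}
    (hf : ∀ i ∈ s, IsStable h (f i)) : IsStable h (fun N => ∑ i ∈ s, f i N) := by
  classical
  induction s using Finset.induction_on with
  | empty => exact (IsStable.zero h).congr (Eventually.of_forall (fun N => by simp))
  | insert a s ha ih =>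
    exact ((hf a (Finset.mem_insert_self _ _)).add
      (ih (fun i hi => hf i (Finset.mem_insert_of_mem hi)))).congr
      (Eventually.of_forall (fun N => by rw [Finset.sum_insert ha]))

lemma IsStable.listSum {h : ℕ} {ι : Type*} (s : List ι) {f : ι → ℕ → Poly}
    (hf : ∀ i ∈ s, IsStable h (f i)) : IsStable h (fun N => (s.map (fun i => f i N)).sum) := by
  induction s with
  | nil => exact (IsStable.zero h).congr (Eventually.of_forall (fun N => by simp))
  | cons a s ih =>
    exact ((hf a List.mem_cons_self).add
      (ih (fun i hi => hf i (List.mem_cons_of_mem _ hi)))).congr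
      (Eventually.of_forall (fun N => by rw [List.map_cons, List.sum_cons]))

/-- additive operators: it is enough to check stability on the `K` of affine sequences -/
lemma IsStable.map {h h' : ℕ} {f : ℕ → Poly} (hf : IsStable h f) (O : ℕ → Poly →+ Poly)
    (hO : ∀ α, Adm h α → IsStable h' (fun N => O N (K h (evS N α)))) :
    IsStable h' (fun N => O N (f N)) := by
  obtain ⟨C, hC, hN⟩ := hf
  have h1 : IsStable h' (fun N => ∑ α ∈ C.support, C α • O N (K h (evS N α))) :=
    IsStable.sum C.support (fun α hα => (hO α (hC α hα)).nsmul (C α))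
  apply h1.congr
  filter_upwards [hN] with N hN
  rw [hN, Finsupp.sum, map_sum]
  refine Finset.sum_congr rfl (fun α _ => ?_)
  rw [map_nsmul]

/-! ### closure under `π_i` -/

lemma stable_demazure_K {h i : ℕ} (hi : i + 1 < h) {α : ℕ → Aff} (hα : Adm h α) :
    IsStable h (fun N => demazure i (K h (evS N α))) := by
  rcases lt_trichotomy (α i) (α (i + 1)) with hlt | heq | hgt
  · apply (IsStable.single hα).congr
    filter_upwards [evN_lt hlt (hα.nonneg i)] with N hN
    exact demazure_K_of_lt hi hN
  · apply (IsStable.single hα).congr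
    filter_upwards with N
    apply K_eq hi
    simp only [evS, heq]
  · apply (IsStable.single (hα.sw hi)).congr
    filter_upwards [evN_lt hgt (hα.nonneg (i + 1))] with N hN
    rw [evS_sw]
    exact demazure_K_of_gt hi hN

lemma IsStable.demazure {h i : ℕ} (hi : i + 1 < h) {f : ℕ → Poly} (hf : IsStable h f) :
    IsStable h (fun N => demazure i (f N)) :=
  hf.map (fun _ => demHom i) (fun _ hα => stable_demazure_K hi hα)

lemma IsStable.word {h : ℕ} {I : List ℕ} (hI : ∀ i ∈ I, i + 1 < h) {f : ℕ → Poly}
    (hf : IsStable h f) : IsStable h (fun N => word I (f N)) := by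
  induction I with
  | nil => exact hf
  | cons i I ih =>
    exact (ih (fun j hj => hI j (List.mem_cons_of_mem _ hj))).demazure (hI i List.mem_cons_self)

lemma IsStable.chain {h : ℕ} : ∀ (d p : ℕ), p + d < h → ∀ {f : ℕ → Poly}, IsStable h f →
    IsStable h (fun N => chain p d (f N)) := by
  intro d
  induction d with
  | zero => intro p _ f hf; exact hf
  | succ d ih =>
    intro p hp f hf
    exact (ih (p + 1) (by omega) hf).demazure (by omega)

/-! ### monomials -/

lemma eventually_base {h : ℕ} {α : ℕ → Aff} (hd : ∀ i, i + 1 < h → α (i + 1) ≤ α i) :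
    ∀ᶠ N in atTop, ∀ i, i + 1 < h → evS N α (i + 1) ≤ evS N α i := by
  have h1 : ∀ i ∈ Finset.range h, ∀ᶠ N in atTop, i + 1 < h → evS N α (i + 1) ≤ evS N α i := by
    intro i _
    by_cases hi : i + 1 < h
    · filter_upwards [evN_le (hd i hi)] with N hN _
      exact hN
    · exact Eventually.of_forall (fun _ hi' => absurd hi' hi)
  filter_upwards [(Filter.eventually_all_finset _).2 h1] with N hN i hi
  exact hN i (Finset.mem_range.2 (by omega)) hi

lemma stable_mono {h : ℕ} {α : ℕ → Aff} (hα : Adm h α) (hd : ∀ i, i + 1 < h → α (i + 1) ≤ α i) :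
    IsStable h (fun N => mono h (evS N α)) := by
  apply (IsStable.single hα).congr
  filter_upwards [eventually_base hd] with N hN
  rw [K_base hN]

/-- every `K` of an affine sequence is a fixed word of `π`'s applied to a dominant monomial -/
lemma exists_word_K {h : ℕ} : ∀ α : ℕ → Aff, Adm h α →
    ∃ (I : List ℕ) (l : ℕ → Aff), (∀ i ∈ I, i + 1 < h) ∧ Adm h l ∧
      (∀ i, i + 1 < h → l (i + 1) ≤ l i) ∧
      ∀ᶠ N in atTop, K h (evS N α) = word I (mono h (evS N l)) := by
  refine asc_induction h ?_ ?_
  · intro α hd hα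
    refine ⟨[], α, by simp, hα, hd, ?_⟩
    filter_upwards [eventually_base hd] with N hN
    rw [K_base hN, word_nil]
  · intro α i hi hlt ih hα
    obtain ⟨I, l, hI, hl, hd, hN⟩ := ih (hα.sw hi)
    refine ⟨i :: I, l, ?_, hl, hd, ?_⟩
    · intro j hj
      rw [List.mem_cons] at hj
      rcases hj with rfl | hj
      · exact hi
      · exact hI j hj
    · filter_upwards [hN, evN_lt hlt (hα.nonneg i)] with N h1 h2
      rw [K_step hi h2, word_cons, ← h1]
      rfl

/-! ### closure under multiplication by `omega p` -/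

lemma le_of_lt_add_one {a b : Aff} (h : a < b + oneA) : a ≤ b := by
  apply le_of_ev_le
  apply Eventually.frequently
  filter_upwards [ev_lt h] with N hN
  rw [ev_add, ev_oneA] at hN
  omega

/-- `chi` as a sequence of affine functions -/
def chiA (p B : ℕ) (v : ℕ → ℕ) : ℕ → Aff := fun j => if j < B ∧ v j < p then oneA else 0

lemma stable_PiOp_mono {h p : ℕ} (v : ℕ → ℕ) {l : ℕ → Aff} (hl : Adm h l)
    (hd : ∀ i, i + 1 < h → l (i + 1) ≤ l i) :
    IsStable h (fun N => PiOp h v (mono h (chi p v) * mono h (evS N l))) := by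
  set n : ℕ → Aff := fun j => l j + chiA p h v j with hn
  have hchi : ∀ j, 0 ≤ chiA p h v j := by
    intro j
    unfold chiA
    split_ifs
    · exact oneA_nonneg
    · exact le_refl _
  have hnA : Adm h n := by
    constructor
    · intro j
      exact add_nonneg' (hl.nonneg j) (hchi j)
    · intro j hj
      rw [hn]
      simp only [hl.supp j hj, chiA]
      rw [if_neg (by omega), add_zero]
  have hev : ∀ᶠ N in atTop, mono h (chi p v) * mono h (evS N l) = mono h (evS N n) := by
    have h1 : ∀ j ∈ Finset.range h, ∀ᶠ N in atTop, chi p v j + evS N l j = evS N n j := by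
      intro j hj
      filter_upwards [evN_add (hl.nonneg j) (hchi j)] with N hN
      simp only [evS, hn]
      rw [hN, add_comm]
      congr 1
      unfold chi chiA
      rw [Finset.mem_range] at hj
      by_cases hv : v j < p
      · rw [if_pos hv, if_pos ⟨hj, hv⟩]
        simp [evN, ev_oneA]
      · rw [if_neg hv, if_neg (by tauto), evN_zero]
    filter_upwards [(Filter.eventually_all_finset _).2 h1] with N hN
    rw [← mono_add]
    exact mono_congr (fun j hj => hN j (Finset.mem_range.2 hj))
  by_cases hdn : ∀ i, i + 1 < h → n (i + 1) ≤ n i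
  · obtain ⟨I, hI, hw⟩ := exists_word_PiOp h v
    apply ((stable_mono hnA hdn).word hI).congr
    filter_upwards [hev] with N hN
    rw [hN, hw]
  · push Not at hdn
    obtain ⟨i, hi, hlt⟩ := hdn
    -- `l i = l (i+1)`, and `v` has a descent at `i`
    have hvi : ¬ v i < p := by
      intro hcon
      apply absurd hlt
      rw [not_lt, hn]
      simp only
      have h1 : chiA p h v i = oneA := by unfold chiA; rw [if_pos ⟨by omega, hcon⟩]
      rw [h1]
      have h2 : chiA p h v (i + 1) ≤ oneA := by
        unfold chiA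
        split_ifs
        · exact le_refl _
        · exact oneA_nonneg
      exact add_le_add (hd i hi) h2
    have hvi' : v (i + 1) < p := by
      by_contra hcon
      apply absurd hlt
      rw [not_lt, hn]
      simp only
      have h1 : chiA p h v i = 0 := by unfold chiA; rw [if_neg (by tauto)]
      have h2 : chiA p h v (i + 1) = 0 := by unfold chiA; rw [if_neg (by tauto)]
      rw [h1, h2, add_zero, add_zero]
      exact hd i hi
    have e1 : n i = l i := by
      rw [hn]; simp only [chiA]; rw [if_neg (by tauto), add_zero]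
    have e2 : n (i + 1) = l (i + 1) + oneA := by
      rw [hn]; simp only [chiA]; rw [if_pos ⟨hi, hvi'⟩]
    have e3 : l i = l (i + 1) := by
      apply le_antisymm
      · apply le_of_lt_add_one
        rw [← e1, ← e2]; exact hlt
      · exact hd i hi
    apply (IsStable.zero h).congr
    filter_upwards [hev, evN_add (hl.nonneg (i + 1)) oneA_nonneg] with N hN h2
    rw [hN, PiOp_step hi (by omega), demazure_mono_of_succ hi, map_zero]
    simp only [evS]
    rw [e1, e2, h2, e3]
    simp [evN, ev_oneA]

lemma stable_omega_mul_K {h p : ℕ} (hp : p ≤ h) {α : ℕ → Aff} (hα : Adm h α) :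
    IsStable h (fun N => omega p * K h (evS N α)) := by
  obtain ⟨I, l, hI, hl, hd, hN⟩ := exists_word_K α hα
  obtain ⟨V, -, hV⟩ := omega_mul_word h p hp I hI
  have h1 : IsStable h (fun N => (V.map (fun v =>
      PiOp h v (mono h (chi p v) * mono h (evS N l)))).sum) :=
    IsStable.listSum V (fun v _ => stable_PiOp_mono v hl hd)
  apply h1.congr
  filter_upwards [hN] with N hN
  rw [hN, hV]

lemma IsStable.omega_mul {h p : ℕ} (hp : p ≤ h) {f : ℕ → Poly} (hf : IsStable h f) :
    IsStable h (fun N => omega p * f N) :=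
  hf.map (fun _ => AddMonoidHom.mulLeft (omega p)) (fun _ hα => stable_omega_mul_K hp hα)

/-! ### closure under multiplication by `omega h ^ m` and enlarging `h` -/

lemma stable_omega_pow_mul_K {h : ℕ} {m : Aff} (hm : 0 ≤ m) {α : ℕ → Aff} (hα : Adm h α) :
    IsStable h (fun N => omega h ^ evN N m * K h (evS N α)) := by
  set β : ℕ → Aff := fun j => if j < h then α j + m else 0 with hβ
  have hβA : Adm h β := by
    constructor
    · intro j
      simp only [hβ]
      split_ifs
      · exact add_nonneg' (hα.nonneg j) hm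
      · exact le_refl _
    · intro j hj
      simp only [hβ]
      rw [if_neg (by omega)]
  apply (IsStable.single hβA).congr
  have h1 : ∀ j ∈ Finset.range h, ∀ᶠ N in atTop, evS N β j = evS N α j + evN N m := by
    intro j hj
    rw [Finset.mem_range] at hj
    filter_upwards [evN_add (hα.nonneg j) hm] with N hN
    simp only [evS, hβ, if_pos hj]
    exact hN
  filter_upwards [(Filter.eventually_all_finset _).2 h1] with N hN
  rw [← K_add]
  exact K_congr _ _ (fun j hj => (hN j (Finset.mem_range.2 hj)).symm)

lemma IsStable.omega_pow_mul {h : ℕ} {m : Aff} (hm : 0 ≤ m) {f : ℕ → Poly} (hf : IsStable h f) :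
    IsStable h (fun N => omega h ^ evN N m * f N) :=
  hf.map (fun N => AddMonoidHom.mulLeft (omega h ^ evN N m))
    (fun _ hα => stable_omega_pow_mul_K hm hα)

lemma IsStable.succ {h : ℕ} {f : ℕ → Poly} (hf : IsStable h f) : IsStable (h + 1) f := by
  have := hf.map (h' := h + 1) (fun _ => AddMonoidHom.id Poly) (by
    intro α hα
    apply (IsStable.single (hα.mono (Nat.le_succ h))).congr
    filter_upwards with N
    rw [K_succ_of_zero]
    · rfl
    · simp [evS, hα.supp h (le_refl h), evN_zero])
  exact this

/-! ### The main stability theorem for `Phi` -/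

theorem stable_Phi : ∀ (h : ℕ) (x : ℕ → Aff), (∀ j, j < h → 0 ≤ x j) →
    (∀ i j, i < h → j < h → x i = x j → i = j) → IsStable h (fun N => Phi h (evS N x)) := by
  intro h
  induction h with
  | zero =>
    intro x _ _
    have hA : Adm 0 (fun _ => (0 : Aff)) := ⟨fun _ => le_refl _, fun _ _ => rfl⟩
    apply (IsStable.single hA).congr
    filter_upwards with N
    rw [Phi_base (fun i hi => absurd hi (by omega)), K_base (fun i hi => absurd hi (by omega))]
    simp [mono]
  | succ h ih =>
    intro x hx hinj
    obtain ⟨p, hp, hmin⟩ := Finset.exists_min_image (Finset.range (h + 1)) x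
      ⟨0, Finset.mem_range.2 (Nat.succ_pos h)⟩
    rw [Finset.mem_range] at hp
    have hlt : ∀ j, j < h + 1 → j ≠ p → x p < x j := by
      intro j hj hne
      apply lt_of_le_of_ne (hmin j (Finset.mem_range.2 hj))
      intro heq
      exact hne (hinj p j hp hj heq).symm
    obtain ⟨d, hd⟩ : ∃ d, h = p + d := ⟨h - p, by omega⟩
    subst hd
    have hskip : ∀ j, j < p + d → ∃ k, k < p + d + 1 ∧ k ≠ p ∧ skip p x j = x k := by
      intro j hj
      unfold skip
      by_cases hjp : j < p
      · exact ⟨j, by omega, by omega, if_pos hjp⟩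
      · exact ⟨j + 1, by omega, by omega, if_neg hjp⟩
    have hskip' : ∀ j, j < p + d → x p < skip p x j := by
      intro j hj
      obtain ⟨k, hk, hne, e⟩ := hskip j hj
      rw [e]; exact hlt k hk hne
    set y : ℕ → Aff := fun j => skip p x j - x p - oneA with hy
    have hyS := ih y (fun j hj => sub_one_nonneg (hskip' j hj)) (by
      intro i j hi hj hij
      simp only [hy] at hij
      have h1 : skip p x i = skip p x j := by
        have := congrArg (fun a => a + oneA + x p) hij
        simpa using this
      unfold skip at h1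
      by_cases hip : i < p <;> by_cases hjp : j < p
      · rw [if_pos hip, if_pos hjp] at h1
        exact hinj i j (by omega) (by omega) h1
      · rw [if_pos hip, if_neg hjp] at h1
        have := hinj i (j + 1) (by omega) (by omega) h1
        omega
      · rw [if_neg hip, if_pos hjp] at h1
        have := hinj (i + 1) j (by omega) (by omega) h1
        omega
      · rw [if_neg hip, if_neg hjp] at h1
        have := hinj (i + 1) (j + 1) (by omega) (by omega) h1
        omega)
    have hfin : IsStable (p + d + 1) (fun N => omega p * chain p d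
        (omega (p + d + 1) ^ evN N (x p) * Phi (p + d) (evS N y))) :=
      ((hyS.succ.omega_pow_mul (hx p hp)).chain d p (by omega)).omega_mul (by omega)
    apply hfin.congr
    have h1 : ∀ j ∈ Finset.range (p + d + 1), ∀ᶠ N in atTop, j ≠ p →
        evS N x p < evS N x j := by
      intro j hj
      by_cases hne : j = p
      · exact Eventually.of_forall (fun _ h => absurd hne h)
      · filter_upwards [evN_lt (hlt j (Finset.mem_range.1 hj) hne) (hx p hp)] with N hN _
        exact hN
    have h2 : ∀ j ∈ Finset.range (p + d), ∀ᶠ N in atTop,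
        evS N y j = skip p (evS N x) j - (evS N x p + 1) := by
      intro j hj
      rw [Finset.mem_range] at hj
      filter_upwards [evN_sub_one (hskip' j hj) (hx p hp)] with N hN
      simp only [evS, hy]
      rw [hN]
      unfold skip
      split_ifs <;> rfl
    filter_upwards [(Filter.eventually_all_finset _).2 h1, (Filter.eventually_all_finset _).2 h2]
      with N e1 e2
    rw [Phi_insert d p (evS N x) (fun j hj hne => e1 j (Finset.mem_range.2 hj) hne)]
    rw [Phi_congr (B := p + d) (evS N y) (fun j => skip p (evS N x) j - (evS N x p + 1))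
      (fun j hj => e2 j (Finset.mem_range.2 hj))]
    rfl

end Pool.Agent.Lib.MP_26ab9b_co
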