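import Mathlib
import Pool.Agent.Lib.MP_26ab9b_co.Affine

/-!
# Existence and uniqueness of Schubert and key polynomials (MP_26ab9b_co)
-/

namespace Pool.Agent.Lib.MP_26ab9b_co

open MvPolynomial Finset

/-! ## Stability of `Phi` -/

lemma chain_fix {p : ℕ} {G : Poly} : ∀ e, (∀ i, p ≤ i → demazure i G = G) → chain p e G = G := by
  intro e
  induction e generalizing p with
  | zero => intro _; rfl
  | succ e ih =>
    intro h
    change demazure p (chain (p + 1) e G) = G
    rw [ih (fun i hi => h i (by omega)), h p (le_refl p)]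

lemma chain_add {G : Poly} : ∀ d p e, (∀ i, p + d ≤ i → demazure i G = G) →
    chain p (d + e) G = chain p d G := by
  intro d
  induction d with
  | zero =>
    intro p e h
    rw [zero_add]
    exact chain_fix e (fun i hi => h i (by omega))
  | succ d ih =>
    intro p e h
    have e1 : d + 1 + e = (d + e) + 1 := by omega
    rw [e1]
    change demazure p (chain (p + 1) (d + e) G) = demazure p (chain (p + 1) d G)
    rw [ih (p + 1) e (fun i hi => h i (by omega))]

lemma demazure_Phi {B i : ℕ} (hi : B ≤ i) (x : ℕ → ℕ) : demazure i (Phi B x) = Phi B x :=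
  demazure_of_symm (swapVars_Phi hi x)

/-- If the first `n` entries of `w` are `0, …, n - 1` in some order, and they increase from the
position `h` on, then `Phi n w = Phi h w`. -/
theorem Phi_stab : ∀ (n h : ℕ) (w : ℕ → ℕ), h ≤ n → (∀ i, i < n → w i < n) →
    (∀ i j, i < n → j < n → w i = w j → i = j) →
    (∀ i j, h ≤ i → i < j → j < n → w i < w j) → Phi n w = Phi h w := by
  intro n
  induction n with
  | zero =>
    intro h w hh _ _ _
    have : h = 0 := by omega
    rw [this]
  | succ n ih =>
    intro h w hh hlt hinj hinc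
    rcases Nat.eq_or_lt_of_le hh with rfl | hh'
    · rfl
    have hh : h ≤ n := by omega
    -- the position of `0`
    obtain ⟨p, hp, hp0⟩ : ∃ p, p < n + 1 ∧ w p = 0 := by
      have h1 : (range (n + 1)).image w = range (n + 1) := by
        apply eq_of_subset_of_card_le
        · intro y hy
          rw [mem_image] at hy
          obtain ⟨i, hi, rfl⟩ := hy
          exact mem_range.2 (hlt i (mem_range.1 hi))
        · rw [card_image_of_injOn]
          intro i hi j hj hij
          exact hinj i j (by simpa using hi) (by simpa using hj) hij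
      have h2 : (0 : ℕ) ∈ (range (n + 1)).image w := by
        rw [h1]; exact mem_range.2 (Nat.succ_pos n)
      rw [mem_image] at h2
      obtain ⟨p, hp, hp0⟩ := h2
      exact ⟨p, mem_range.1 hp, hp0⟩
    have hpos : ∀ j, j < n + 1 → j ≠ p → w p < w j := by
      intro j hj hne
      rw [hp0]
      rcases Nat.eq_zero_or_pos (w j) with h0 | h0
      · exact absurd (hinj j p hj hp (by rw [h0, hp0])) hne
      · exact h0
    have hph : p ≤ h := by
      by_contra hcon
      have h1 := hinc h p (le_refl h) (by omega) hp
      omega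
    set w' : ℕ → ℕ := fun j => skip p w j - (w p + 1) with hw'
    have hw'j : ∀ j, j < n → w' j = skip p w j - 1 ∧ 0 < skip p w j := by
      intro j hj
      refine ⟨by simp only [hw', hp0, zero_add], ?_⟩
      unfold skip
      by_cases hjp : j < p
      · rw [if_pos hjp]
        have := hpos j (by omega) (by omega)
        omega
      · rw [if_neg hjp]
        have := hpos (j + 1) (by omega) (by omega)
        omega
    have hlt' : ∀ i, i < n → w' i < n := by
      intro i hi
      obtain ⟨e1, e2⟩ := hw'j i hi
      have h3 : skip p w i < n + 1 := by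
        unfold skip
        by_cases hip : i < p
        · rw [if_pos hip]; exact hlt i (by omega)
        · rw [if_neg hip]; exact hlt (i + 1) (by omega)
      omega
    have hinj' : ∀ i j, i < n → j < n → w' i = w' j → i = j := by
      intro i j hi hj hij
      obtain ⟨e1, e2⟩ := hw'j i hi
      obtain ⟨e3, e4⟩ := hw'j j hj
      have h1 : skip p w i = skip p w j := by omega
      unfold skip at h1
      by_cases hip : i < p <;> by_cases hjp : j < p
      · rw [if_pos hip, if_pos hjp] at h1
        exact hinj i j (by omega) (by omega) h1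
      · rw [if_pos hip, if_neg hjp] at h1
        have := hinj i (j + 1) (by omega) (by omega) h1
        omega
      · rw [if_neg hip, if_pos hjp] at h1
        have := hinj (i + 1) j (by omega) (by omega) h1
        omega
      · rw [if_neg hip, if_neg hjp] at h1
        have := hinj (i + 1) (j + 1) (by omega) (by omega) h1
        omega
    obtain ⟨d, hd⟩ : ∃ d, n = p + d := ⟨n - p, by omega⟩
    have hn : Phi (n + 1) w = omega p * chain p d (Phi n w') := by
      have := Phi_insert d p w (fun j hj hne => hpos j (by omega) hne)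
      rw [← hd, hp0, pow_zero, one_mul] at this
      rw [this]
      simp only [hw', hp0]
    rcases Nat.eq_or_lt_of_le hph with rfl | hph'
    · -- `p = h`
      have h1 : Phi n w' = Phi p w' := by
        apply ih p w' hh hlt' hinj'
        intro i j hi hij hj
        obtain ⟨e1, e2⟩ := hw'j i (by omega)
        obtain ⟨e3, e4⟩ := hw'j j hj
        have h3 : skip p w i < skip p w j := by
          unfold skip
          rw [if_neg (by omega), if_neg (by omega)]
          exact hinc (i + 1) (j + 1) (by omega) (by omega) (by omega)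
        omega
      rw [hn, h1, chain_fix d (fun i hi => demazure_Phi hi w')]
      have h2 : Phi p w = Phi p (fun j => w' j + 1) := by
        apply Phi_congr
        intro j hj
        obtain ⟨e1, e2⟩ := hw'j j (by omega)
        have e5 : skip p w j = w j := by unfold skip; rw [if_pos hj]
        omega
      rw [h2, Phi_add, pow_one]
    · -- `p < h`
      obtain ⟨e, he⟩ : ∃ e, h = p + e + 1 := ⟨h - p - 1, by omega⟩
      have h1 : Phi n w' = Phi (p + e) w' := by
        apply ih (p + e) w' (by omega) hlt' hinj'
        intro i j hi hij hj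
        obtain ⟨e1, e2⟩ := hw'j i (by omega)
        obtain ⟨e3, e4⟩ := hw'j j hj
        have h3 : skip p w i < skip p w j := by
          unfold skip
          rw [if_neg (by omega), if_neg (by omega)]
          exact hinc (i + 1) (j + 1) (by omega) (by omega) (by omega)
        omega
      have h2 : Phi h w = omega p * chain p e (Phi (p + e) w') := by
        have := Phi_insert e p w (fun j hj hne => hpos j (by omega) hne)
        rw [← he, hp0, pow_zero, one_mul] at this
        rw [this]
        simp only [hw', hp0]
      obtain ⟨f, hf⟩ : ∃ f, d = e + f := ⟨d - e, by omega⟩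
      rw [hn, h1, h2, hf, chain_add e p f (fun i hi => demazure_Phi hi w')]

/-! ## The Schubert family -/

lemma FinPerm.mulSwap_apply (w : FinPerm) (i j : ℕ) :
    (w.mulSwap i) j = sw i (fun k => w k) j := rfl

lemma FinPerm.exists_bound (w : FinPerm) : ∃ n, ∀ j, n ≤ j → w j = j := by
  obtain ⟨n, hn⟩ := w.2.bddAbove
  refine ⟨n + 1, fun j hj => ?_⟩
  by_contra h
  have := hn h
  omega

lemma FinPerm.injective (w : FinPerm) {i j : ℕ} (h : w i = w j) : i = j := w.1.injective h

lemma FinPerm.lt_of_bound {w : FinPerm} {n : ℕ} (h : ∀ j, n ≤ j → w j = j) {i : ℕ} (hi : i < n) :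
    w i < n := by
  by_contra hcon
  push Not at hcon
  have h1 := h _ hcon
  have h2 := w.injective h1
  omega

lemma FinPerm.ext' {w v : FinPerm} (h : ∀ j, w j = v j) : w = v := by
  obtain ⟨w, hw⟩ := w
  obtain ⟨v, hv⟩ := v
  have : w = v := Equiv.ext h
  subst this
  rfl

lemma FinPerm.mulSwap_mulSwap (w : FinPerm) (i : ℕ) : (w.mulSwap i).mulSwap i = w := by
  apply FinPerm.ext'
  intro j
  rw [mulSwap_apply]
  have : (fun k => (w.mulSwap i) k) = sw i (fun k => w k) := rfl
  rw [this, sw_sw]

/-- The Schubert polynomial as a value of `Phi`. -/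
lemma Phi_eq_of_increasing {w : FinPerm} {n h : ℕ} (hn : ∀ j, n ≤ j → w j = j)
    (hinc : ∀ i j, h ≤ i → i < j → w i < w j) (hh : h ≤ n) :
    Phi n (fun k => w k) = Phi h (fun k => w k) :=
  Phi_stab n h _ hh (fun _ hi => FinPerm.lt_of_bound hn hi) (fun _ _ _ _ h => w.injective h)
    (fun i j hi hij _ => hinc i j hi hij)

lemma Phi_bound_indep {w : FinPerm} {n m : ℕ} (hn : ∀ j, n ≤ j → w j = j)
    (hm : ∀ j, m ≤ j → w j = j) : Phi n (fun k => w k) = Phi m (fun k => w k) := by
  have key : ∀ a b : ℕ, a ≤ b → (∀ j, a ≤ j → w j = j) →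
      Phi b (fun k => w k) = Phi a (fun k => w k) := by
    intro a b hab ha
    apply Phi_eq_of_increasing (fun j hj => ha j (by omega)) _ hab
    intro i j hi hij
    rw [ha i hi, ha j (by omega)]
    exact hij
  rcases le_total n m with h | h
  · exact (key n m h hn).symm
  · exact key m n h hm

lemma longest_apply (n i : ℕ) : (FinPerm.longest n) i = if i < n then n - 1 - i else i := rfl

/-- decreasing sequence of length `n` with values below `n` -/
lemma eq_of_decreasing : ∀ (n : ℕ) (x : ℕ → ℕ), (∀ i, i < n → x i < n) →
    (∀ i j, i < n → j < n → x i = x j → i = j) → (∀ i, i + 1 < n → x (i + 1) ≤ x i) →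
    ∀ i, i < n → x i = n - 1 - i := by
  intro n x hlt hinj hdec
  have hstrict : ∀ i, i + 1 < n → x (i + 1) < x i := by
    intro i hi
    apply lt_of_le_of_ne (hdec i hi)
    intro h
    have := hinj (i + 1) i hi (by omega) h
    omega
  have h1 : ∀ i, i < n → x i + i ≤ n - 1 := by
    intro i
    induction i with
    | zero => intro hi; have := hlt 0 hi; omega
    | succ i ih => intro hi; have := hstrict i hi; have := ih (by omega); omega
  have h2 : ∀ k, k < n → k ≤ x (n - 1 - k) := by
    intro k
    induction k with
    | zero => intro _; exact Nat.zero_le _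
    | succ k ih =>
      intro hk
      have e : n - 1 - k = (n - 1 - (k + 1)) + 1 := by omega
      have h3 := hstrict (n - 1 - (k + 1)) (by omega)
      rw [← e] at h3
      have := ih (by omega)
      omega
  intro i hi
  have h3 := h2 (n - 1 - i) (by omega)
  have e : n - 1 - (n - 1 - i) = i := by omega
  rw [e] at h3
  have := h1 i hi
  omega

theorem exists_schubertFamily : ∃ S : FinPerm → Poly, IsSchubertFamily S := by
  refine ⟨fun w => Phi (Classical.choose w.exists_bound) (fun k => w k), ?_, ?_⟩
  · intro n
    have hb : ∀ j, n ≤ j → (FinPerm.longest n) j = j := by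
      intro j hj
      rw [longest_apply, if_neg (by omega)]
    rw [Phi_bound_indep (Classical.choose_spec (FinPerm.longest n).exists_bound) hb]
    rw [Phi_base]
    · unfold mono
      refine prod_congr rfl (fun j hj => ?_)
      rw [mem_range] at hj
      have := longest_apply n j
      rw [if_pos hj] at this
      exact congrArg _ this
    · intro i hi
      rw [longest_apply, longest_apply, if_pos hi, if_pos (by omega)]
      omega
  · intro w i hlt
    obtain ⟨n, hn⟩ := w.exists_bound
    have hb : ∀ j, n + i + 2 ≤ j → w j = j := fun j hj => hn j (by omega)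
    have hb' : ∀ j, n + i + 2 ≤ j → (w.mulSwap i) j = j := by
      intro j hj
      rw [FinPerm.mulSwap_apply, sw_of_ne _ (by omega) (by omega)]
      exact hn j (by omega)
    rw [Phi_bound_indep (Classical.choose_spec (w.mulSwap i).exists_bound) hb',
      Phi_bound_indep (Classical.choose_spec w.exists_bound) hb]
    have e : (fun k => (w.mulSwap i) k) = sw i (fun k => w k) := rfl
    rw [e, Phi_step (i := i) (by omega) (by rw [sw_left, sw_right]; exact hlt), sw_sw]

/-- Every Schubert family is given by `Phi`. -/
theorem IsSchubertFamily.eq_Phi_bound {S : FinPerm → Poly} (hS : IsSchubertFamily S) (n : ℕ) :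
    ∀ (x : ℕ → ℕ) (w : FinPerm), (∀ j, n ≤ j → w j = j) → (∀ j, w j = x j) → S w = Phi n x := by
  intro x
  induction x using nat_asc_induction n with
  | h0 x hx =>
    intro w hn hw
    have h1 := eq_of_decreasing n (fun k => w k) (fun i hi => FinPerm.lt_of_bound hn hi)
      (fun _ _ _ _ h => w.injective h) (by
        intro i hi
        rw [hw, hw]; exact hx i hi)
    have h2 : w = FinPerm.longest n := by
      apply FinPerm.ext'
      intro j
      rw [longest_apply]
      by_cases hj : j < n
      · rw [if_pos hj]; exact h1 j hj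
      · rw [if_neg hj]; exact hn j (by omega)
    rw [h2, hS.longest, Phi_base hx]
    unfold mono
    refine prod_congr rfl (fun j hj => ?_)
    rw [mem_range] at hj
    rw [← hw j]
    congr 1
    exact (h1 j hj).symm
  | h1 x i hi hlt ih =>
    intro w hn hw
    have e1 : S w = divDiff i (S (w.mulSwap i)) := by
      have := hS.step (w.mulSwap i) i (by
        rw [FinPerm.mulSwap_apply, FinPerm.mulSwap_apply, sw_left, sw_right, hw, hw]
        exact hlt)
      rwa [FinPerm.mulSwap_mulSwap] at this
    rw [e1, Phi_step hi hlt, ih (w.mulSwap i)]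
    · intro j hj
      rw [FinPerm.mulSwap_apply, sw_of_ne _ (by omega) (by omega)]
      exact hn j hj
    · intro j
      rw [FinPerm.mulSwap_apply]
      unfold sw
      exact hw _

theorem IsSchubertFamily.eq_Phi {S : FinPerm → Poly} (hS : IsSchubertFamily S) {w : FinPerm}
    {h : ℕ} (hinc : ∀ i j, h ≤ i → i < j → w i < w j) : S w = Phi h (fun k => w k) := by
  obtain ⟨n, hn⟩ := w.exists_bound
  have hn' : ∀ j, n + h ≤ j → w j = j := fun j hj => hn j (by omega)
  rw [hS.eq_Phi_bound (n + h) (fun k => w k) w hn' (fun _ => rfl)]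
  exact Phi_eq_of_increasing hn' hinc (by omega)

theorem existsUnique_schubertFamily : ∃! S : FinPerm → Poly, IsSchubertFamily S := by
  obtain ⟨S, hS⟩ := exists_schubertFamily
  refine ⟨S, hS, fun S' hS' => ?_⟩
  funext w
  obtain ⟨n, hn⟩ := w.exists_bound
  rw [hS.eq_Phi_bound n (fun k => w k) w hn (fun _ => rfl),
    hS'.eq_Phi_bound n (fun k => w k) w hn (fun _ => rfl)]

/-! ## The key family -/

lemma swapParts_apply (i : ℕ) (α : ℕ →₀ ℕ) (j : ℕ) :
    swapParts i α j = sw i (fun k => α k) j := by
  unfold swapParts sw
  rw [Finsupp.equivMapDomain_apply, Equiv.symm_swap]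

lemma exists_bound_finsupp (α : ℕ →₀ ℕ) : ∃ n, ∀ j, n ≤ j → α j = 0 := by
  obtain ⟨n, hn⟩ := α.support.bddAbove
  refine ⟨n + 1, fun j hj => ?_⟩
  by_contra h
  have := hn (Finsupp.mem_support_iff.2 h)
  omega

lemma K_add_zero {B : ℕ} {x : ℕ → ℕ} (hx : ∀ j, B ≤ j → x j = 0) : ∀ d, K (B + d) x = K B x := by
  intro d
  induction d with
  | zero => rfl
  | succ d ih => rw [← add_assoc, K_succ_of_zero (hx _ (by omega)), ih]

lemma K_bound_indep {B C : ℕ} {x : ℕ → ℕ} (hB : ∀ j, B ≤ j → x j = 0)
    (hC : ∀ j, C ≤ j → x j = 0) : K B x = K C x := by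
  rcases le_total B C with h | h
  · obtain ⟨d, rfl⟩ := Nat.exists_eq_add_of_le h
    exact (K_add_zero hB d).symm
  · obtain ⟨d, rfl⟩ := Nat.exists_eq_add_of_le h
    exact K_add_zero hC d

lemma mono_eq_monomial {B : ℕ} (α : ℕ →₀ ℕ) (h : ∀ j, B ≤ j → α j = 0) :
    mono B (fun k => α k) = monomial α 1 := by
  rw [monomial_eq, C_1, one_mul, mono]
  symm
  apply Finsupp.prod_of_support_subset
  · intro j hj
    rw [mem_range]
    by_contra hcon
    exact (Finsupp.mem_support_iff.1 hj) (h j (by omega))
  · intro i _
    exact pow_zero _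

theorem exists_keyFamily : ∃ κ : (ℕ →₀ ℕ) → Poly, IsKeyFamily κ := by
  refine ⟨fun α => K (Classical.choose (exists_bound_finsupp α)) (fun k => α k), ?_, ?_⟩
  · intro α hα
    rw [K_base (fun i _ => hα (Nat.le_succ i))]
    exact mono_eq_monomial α (Classical.choose_spec (exists_bound_finsupp α))
  · intro α i hlt
    obtain ⟨n, hn⟩ := exists_bound_finsupp α
    have hb : ∀ j, n + i + 2 ≤ j → α j = 0 := fun j hj => hn j (by omega)
    have hb' : ∀ j, n + i + 2 ≤ j → swapParts i α j = 0 := by
      intro j hj
      rw [swapParts_apply, sw_of_ne _ (by omega) (by omega)]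
      exact hb j hj
    rw [K_bound_indep (Classical.choose_spec (exists_bound_finsupp α)) hb,
      K_bound_indep (Classical.choose_spec (exists_bound_finsupp (swapParts i α))) hb']
    have e : (⇑(swapParts i α) : ℕ → ℕ) = sw i (fun k => α k) :=
      funext (fun j => swapParts_apply i α j)
    rw [e, K_step (i := i) (by omega) hlt]

theorem IsKeyFamily.eq_K {κ : (ℕ →₀ ℕ) → Poly} (hκ : IsKeyFamily κ) (B : ℕ) :
    ∀ (x : ℕ → ℕ) (α : ℕ →₀ ℕ), (∀ j, B ≤ j → α j = 0) → (∀ j, α j = x j) → κ α = K B x := by
  intro x
  induction x using nat_asc_induction B with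
  | h0 x hx =>
    intro α hB hα
    have hanti : Antitone (fun k => α k) := by
      apply antitone_nat_of_succ_le
      intro j
      by_cases hj : j + 1 < B
      · rw [hα, hα]; exact hx j hj
      · rw [hB (j + 1) (by omega)]; exact Nat.zero_le _
    rw [hκ.dominant α hanti, K_base hx, ← mono_eq_monomial α hB]
    exact mono_congr (fun j _ => hα j)
  | h1 x i hi hlt ih =>
    intro α hB hα
    rw [hκ.step α i (by rw [hα, hα]; exact hlt), K_step hi hlt, ih (swapParts i α)]
    · intro j hj
      rw [swapParts_apply, sw_of_ne _ (by omega) (by omega)]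
      exact hB j hj
    · intro j
      rw [swapParts_apply]
      unfold sw
      exact hα _

theorem existsUnique_keyFamily : ∃! κ : (ℕ →₀ ℕ) → Poly, IsKeyFamily κ := by
  obtain ⟨κ, hκ⟩ := exists_keyFamily
  refine ⟨κ, hκ, fun κ' hκ' => ?_⟩
  funext α
  obtain ⟨n, hn⟩ := exists_bound_finsupp α
  rw [hκ.eq_K n (fun k => α k) α hn (fun _ => rfl), hκ'.eq_K n (fun k => α k) α hn (fun _ => rfl)]

end Pool.Agent.Lib.MP_26ab9b_co
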