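import Mathlib
import Pool.Agent.Lib.MP_26ab9b_co.Families

/-!
# Lehmer codes (MP_26ab9b_co)
-/

namespace Pool.Agent.Lib.MP_26ab9b_co

open Set

lemma ncard_values_lt (w : Equiv.Perm ℕ) (m : ℕ) : {k | w k < m}.ncard = m := by
  have h : {k | w k < m} = w.symm '' (Iio m) := by
    ext k
    constructor
    · intro hk
      exact ⟨w k, hk, w.symm_apply_apply k⟩
    · rintro ⟨v, hv, rfl⟩
      change w (w.symm v) < m
      rw [w.apply_symm_apply]
      exact hv
  rw [h, ncard_image_of_injective _ w.symm.injective, ncard_eq_toFinset_card', Set.toFinset_Iio,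
    Nat.card_Iio]

lemma finite_values_lt (w : Equiv.Perm ℕ) (m : ℕ) : {k | w k < m}.Finite := by
  have h : {k | w k < m} = w ⁻¹' (Iio m) := rfl
  rw [h]
  exact (finite_Iio m).preimage w.injective.injOn

/-- `w j = code w j + #{k < j : w k < w j}` -/
lemma apply_eq_code_add (w : FinPerm) (j : ℕ) :
    w j = code w j + {k | k < j ∧ w k < w j}.ncard := by
  have h1 : {k | w k < w j} = {k | j < k ∧ w k < w j} ∪ {k | k < j ∧ w k < w j} := by
    ext k
    constructor
    · intro hk
      rcases lt_trichotomy k j with h | h | h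
      · exact Or.inr ⟨h, hk⟩
      · subst h; exact absurd (show w k < w k from hk) (lt_irrefl _)
      · exact Or.inl ⟨h, hk⟩
    · rintro (h | h)
      · exact h.2
      · exact h.2
  have h2 := ncard_values_lt w.toPerm (w j)
  rw [h1, ncard_union_eq _ ((finite_values_lt w.toPerm (w j)).subset (fun k hk => hk.2))
    ((finite_values_lt w.toPerm (w j)).subset (fun k hk => hk.2))] at h2
  · exact h2.symm
  · rw [Set.disjoint_left]
    rintro k ⟨h3, -⟩ ⟨h4, -⟩
    omega

lemma card_le_self (w : FinPerm) (j : ℕ) : {k | k < j ∧ w k < w j}.ncard ≤ j := by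
  calc {k | k < j ∧ w k < w j}.ncard ≤ (Iio j).ncard :=
        ncard_le_ncard (fun k hk => hk.1) (finite_Iio j)
    _ = j := by rw [ncard_eq_toFinset_card', Set.toFinset_Iio, Nat.card_Iio]

lemma not_lt_of_agree {w v : FinPerm} {j : ℕ} (hc : code w j = code v j)
    (h : ∀ k, k < j → w k = v k) : ¬ w j < v j := by
  intro hlt
  have h1 := apply_eq_code_add w j
  have h2 := apply_eq_code_add v j
  have h3 : {k | k < j ∧ v k < v j} ⊆ {k | k < j ∧ w k < w j} ∪ {k | k < j ∧ w k ∈ Ioo (w j) (v j)} := by
    rintro k ⟨hk, hk2⟩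
    rw [← h k hk] at hk2
    rcases lt_trichotomy (w k) (w j) with h4 | h4 | h4
    · exact Or.inl ⟨hk, h4⟩
    · exact absurd (w.injective h4) (by omega)
    · exact Or.inr ⟨hk, h4, hk2⟩
  have f1 : {k | k < j ∧ w k < w j}.Finite := (finite_Iio j).subset (fun k hk => hk.1)
  have f2 : {k | k < j ∧ w k ∈ Ioo (w j) (v j)}.Finite := (finite_Iio j).subset (fun k hk => hk.1)
  have h5 : {k | k < j ∧ w k ∈ Ioo (w j) (v j)}.ncard ≤ v j - w j - 1 := by
    calc {k | k < j ∧ w k ∈ Ioo (w j) (v j)}.ncard
        = (w.toPerm '' {k | k < j ∧ w k ∈ Ioo (w j) (v j)}).ncard :=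
          (ncard_image_of_injective _ w.toPerm.injective).symm
      _ ≤ (Ioo (w j) (v j)).ncard := by
          apply ncard_le_ncard _ (finite_Ioo _ _)
          rintro _ ⟨k, hk, rfl⟩
          exact hk.2
      _ = v j - w j - 1 := by
          rw [ncard_eq_toFinset_card', Set.toFinset_Ioo, Nat.card_Ioo]
  have h6 : {k | k < j ∧ v k < v j}.ncard ≤
      {k | k < j ∧ w k < w j}.ncard + {k | k < j ∧ w k ∈ Ioo (w j) (v j)}.ncard :=
    (ncard_le_ncard h3 (f1.union f2)).trans (ncard_union_le _ _)
  omega

/-- A permutation is determined by its Lehmer code. -/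
theorem code_injective {w v : FinPerm} (h : ∀ j, code w j = code v j) : w = v := by
  apply FinPerm.ext'
  intro j
  induction j using Nat.strong_induction_on with
  | _ j ih =>
    have h1 := not_lt_of_agree (h j) ih
    have h2 := not_lt_of_agree (h j).symm (fun k hk => (ih k hk).symm)
    omega

/-- Every finitely supported sequence is a Lehmer code. -/
theorem exists_code : ∀ (h : ℕ) (c : ℕ → ℕ), (∀ j, h ≤ j → c j = 0) →
    ∃ w : FinPerm, ∀ j, code w j = c j := by
  intro h
  induction h with
  | zero =>
    intro c hc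
    refine ⟨⟨1, by simp⟩, fun j => ?_⟩
    rw [hc j (Nat.zero_le j), code]
    have : {k | j < k ∧ (1 : Equiv.Perm ℕ) k < (1 : Equiv.Perm ℕ) j} = ∅ := by
      apply eq_empty_of_forall_notMem
      rintro k ⟨h1, h2⟩
      simp only [Equiv.Perm.coe_one, id_eq] at h2
      omega
    rw [this, ncard_empty]
  | succ h ih =>
    intro c hc
    obtain ⟨w', hw'⟩ := ih (fun j => c (j + 1)) (fun j hj => hc (j + 1) (by omega))
    set m := c 0 with hm
    set a : Equiv.Perm ℕ := w'.toPerm with ha
    let W : Equiv.Perm ℕ :=
      { toFun := fun j => if j = 0 then m else if a (j - 1) < m then a (j - 1) else a (j - 1) + 1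
        invFun := fun v => if v = m then 0 else if v < m then a.symm v + 1 else a.symm (v - 1) + 1
        left_inv := by
          intro j
          by_cases hj : j = 0
          · simp [hj]
          · simp only [if_neg hj]
            by_cases h1 : a (j - 1) < m
            · simp only [if_pos h1]
              rw [if_neg h1.ne, a.symm_apply_apply]
              omega
            · simp only [if_neg h1]
              rw [if_neg (by omega), if_neg (by omega), Nat.add_sub_cancel, a.symm_apply_apply]
              omega
        right_inv := by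
          intro v
          by_cases hv : v = m
          · simp [hv]
          · by_cases h1 : v < m
            · simp only [if_neg hv, if_pos h1]
              rw [if_neg (by omega), Nat.add_sub_cancel, a.apply_symm_apply, if_pos h1]
            · simp only [if_neg hv, if_neg h1]
              rw [if_neg (by omega), Nat.add_sub_cancel, a.apply_symm_apply, if_neg (by omega)]
              omega }
    have W0 : W 0 = m := rfl
    have Ws : ∀ j, W (j + 1) = if a j < m then a j else a j + 1 := fun j => rfl
    have Wfin : {i | W i ≠ i}.Finite := by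
      obtain ⟨n, hn⟩ := w'.exists_bound
      refine (finite_Iio (n + m + 1)).subset ?_
      intro i hi
      rw [mem_Iio]
      by_contra hcon
      apply hi
      obtain ⟨j, rfl⟩ : ∃ j, i = j + 1 := ⟨i - 1, by omega⟩
      have h1 : a j = j := hn j (by omega)
      rw [Ws, h1, if_neg (by omega)]
    refine ⟨⟨W, Wfin⟩, fun j => ?_⟩
    have hlt : ∀ i j, W (i + 1) < W (j + 1) ↔ a i < a j := by
      intro i j
      rw [Ws, Ws]
      split_ifs <;> omega
    cases j with
    | zero =>
      rw [code]
      have h1 : {k | 0 < k ∧ W k < W 0} = Nat.succ '' {k | a k < m} := by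
        ext k
        constructor
        · rintro ⟨h1, h2⟩
          obtain ⟨i, rfl⟩ : ∃ i, k = i + 1 := ⟨k - 1, by omega⟩
          refine ⟨i, ?_, rfl⟩
          rw [W0, Ws] at h2
          change a i < m
          split_ifs at h2 <;> omega
        · rintro ⟨i, hi, rfl⟩
          refine ⟨Nat.succ_pos i, ?_⟩
          have hi' : a i < m := hi
          rw [W0, Nat.succ_eq_add_one, Ws, if_pos hi']
          exact hi'
      change {k | 0 < k ∧ W k < W 0}.ncard = c 0
      rw [h1, ncard_image_of_injective _ Nat.succ_injective, ncard_values_lt]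
    | succ j =>
      rw [code]
      have h1 : {k | j + 1 < k ∧ W k < W (j + 1)} = Nat.succ '' {k | j < k ∧ a k < a j} := by
        ext k
        constructor
        · rintro ⟨h1, h2⟩
          obtain ⟨i, rfl⟩ : ∃ i, k = i + 1 := ⟨k - 1, by omega⟩
          exact ⟨i, ⟨by omega, (hlt i j).1 h2⟩, rfl⟩
        · rintro ⟨i, ⟨h3, h4⟩, rfl⟩
          exact ⟨Nat.succ_lt_succ h3, (hlt i j).2 h4⟩
      change {k | j + 1 < k ∧ W k < W (j + 1)}.ncard = c (j + 1)
      rw [h1, ncard_image_of_injective _ Nat.succ_injective]
      exact hw' j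

lemma code_eq_zero {w : FinPerm} {n : ℕ} (hn : ∀ j, n ≤ j → w j = j) {j : ℕ} (hj : n ≤ j) :
    code w j = 0 := by
  rw [code]
  have : {k | j < k ∧ w k < w j} = ∅ := by
    apply eq_empty_of_forall_notMem
    rintro k ⟨h1, h2⟩
    rw [hn j hj, hn k (by omega)] at h2
    omega
  rw [this, ncard_empty]

/-- For every `u` and `N` there is a unique permutation with code `N • code u`. -/
theorem existsUnique_stretch (u : FinPerm) (N : ℕ) :
    ∃! w : FinPerm, ∀ i, code w i = N * code u i := by
  obtain ⟨n, hn⟩ := u.exists_bound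
  obtain ⟨w, hw⟩ := exists_code n (fun i => N * code u i) (fun j hj => by
    rw [code_eq_zero hn hj, mul_zero])
  exact ⟨w, hw, fun v hv => code_injective (fun j => by rw [hv j, hw j])⟩

/-! ## The entries of a stretched permutation -/

lemma apply_lt_of_code_eq {w : FinPerm} {i j : ℕ} (hij : i < j) (h : code w i = code w j) :
    w i < w j := by
  by_contra hcon
  push Not at hcon
  have hlt : w j < w i := lt_of_le_of_ne hcon (fun h' => by have := w.injective h'; omega)
  have h1 : insert j {k | j < k ∧ w k < w j} ⊆ {k | i < k ∧ w k < w i} := by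
    intro k hk
    rw [mem_insert_iff] at hk
    rcases hk with rfl | ⟨h1, h2⟩
    · exact ⟨hij, hlt⟩
    · exact ⟨by omega, by omega⟩
  have hf : {k | i < k ∧ w k < w i}.Finite :=
    (finite_values_lt w.toPerm (w i)).subset (fun k hk => hk.2)
  have hf' : {k | j < k ∧ w k < w j}.Finite :=
    (finite_values_lt w.toPerm (w j)).subset (fun k hk => hk.2)
  have h2 := ncard_le_ncard h1 hf
  rw [ncard_insert_of_notMem (by rintro ⟨h3, -⟩; omega) hf'] at h2
  rw [code, code] at h
  omega

/-- the constant term of the entries of a stretched permutation -/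
noncomputable def offset (u : FinPerm) (i : ℕ) : ℕ := {k | k < i ∧ code u k ≤ code u i}.ncard

lemma apply_stretch {u w : FinPerm} {N h : ℕ} (hw : ∀ i, code w i = N * code u i) (hN : h ≤ N)
    {i : ℕ} (hi : i < h) : w i = N * code u i + offset u i := by
  have hpos : 0 < N := by omega
  have h1 : {k | k < i ∧ w k < w i} = {k | k < i ∧ code u k ≤ code u i} := by
    have hle : ∀ a b, a < h → code u a < code u b → w a < w b := by
      intro a b ha hab
      have e1 := apply_eq_code_add w a
      have e2 := apply_eq_code_add w b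
      have e3 := card_le_self w a
      rw [hw] at e1 e2
      have e4 : N * code u a + N ≤ N * code u b := by
        rw [← Nat.mul_succ]
        exact Nat.mul_le_mul_left N hab
      omega
    ext k
    constructor
    · rintro ⟨hk, hlt⟩
      refine ⟨hk, ?_⟩
      by_contra hcon
      push Not at hcon
      have := hle i k hi hcon
      omega
    · rintro ⟨hk, hcle⟩
      refine ⟨hk, ?_⟩
      rcases Nat.eq_or_lt_of_le hcle with heq | hlt
      · exact apply_lt_of_code_eq hk (by rw [hw, hw, heq])
      · exact hle k i (by omega) hlt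
  rw [apply_eq_code_add w i, h1, hw]
  rfl

lemma offset_lt {u : FinPerm} {i j : ℕ} (hij : i < j) (h : code u i = code u j) :
    offset u i < offset u j := by
  unfold offset
  have hf : {k | k < j ∧ code u k ≤ code u j}.Finite := (finite_Iio j).subset (fun k hk => hk.1)
  apply ncard_lt_ncard _ hf
  refine ⟨fun k hk => ⟨by have := hk.1; omega, by rw [← h]; exact hk.2⟩, fun hsub => ?_⟩
  have h1 : i ∈ {k | k < j ∧ code u k ≤ code u j} := ⟨hij, h.le⟩
  have h2 := (hsub h1).1
  omega

end Pool.Agent.Lib.MP_26ab9b_co
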