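import Mathlib
import Pool.Agent.Lib.MP_26ab9b_co.Codes

/-!
# Schubert polynomials, key polynomials, stretched permutations (MP_26ab9b_co)
-/

namespace Pool.Agent.Lib.MP_26ab9b_co

/-- The Schubert polynomials: the unique family with the defining properties
`IsSchubertFamily`. -/
noncomputable def schubert : FinPerm → Poly := Classical.choose existsUnique_schubertFamily.exists

/-- The key polynomials: the unique family with the defining properties `IsKeyFamily`. -/
noncomputable def key : (ℕ →₀ ℕ) → Poly := Classical.choose existsUnique_keyFamily.exists

/-- The stretched permutation `u^{(N)} = code⁻¹ (N code u)`: the unique permutation with code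
`N • code u`. -/
noncomputable def stretch (u : FinPerm) (N : ℕ) : FinPerm :=
  Classical.choose (existsUnique_stretch u N).exists

end Pool.Agent.Lib.MP_26ab9b_co
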