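import Mathlib
import Pool.Agent.Lib.MP_26ab9b_co.Polys

/-!
# Stable key expansions of stretched Schubert polynomials: the proof (MP_26ab9b_co)
-/

namespace Pool.Agent.Lib.MP_26ab9b_co

open Filter

lemma schubert_spec : IsSchubertFamily schubert :=
  Classical.choose_spec existsUnique_schubertFamily.exists

lemma key_spec : IsKeyFamily key := Classical.choose_spec existsUnique_keyFamily.exists

lemma code_stretch (u : FinPerm) (N : ℕ) : ∀ i, code (stretch u N) i = N * code u i :=
  Classical.choose_spec (existsUnique_stretch u N).exists

/-- the entries of the stretched permutations as affine functions of `N` -/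
noncomputable def entry (u : FinPerm) (i : ℕ) : Aff := toLex ((code u i : ℤ), (offset u i : ℤ))

lemma ev_entry (u : FinPerm) (i N : ℕ) : evN N (entry u i) = N * code u i + offset u i := by
  simp only [evN, ev, entry, ofLex_toLex]
  norm_cast

theorem stable_schubert (u : FinPerm) :
    ∃ h, IsStable h (fun N => schubert (stretch u N)) := by
  obtain ⟨h, hh⟩ := u.exists_bound
  refine ⟨h, ?_⟩
  have h1 : IsStable h (fun N => Phi h (evS N (entry u))) := by
    apply stable_Phi h (entry u)
    · intro j _
      apply le_of_ev_le
      apply Eventually.frequently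
      filter_upwards with N
      rw [ev_zero]
      simp only [ev, entry, ofLex_toLex]
      positivity
    · intro i j _ _ hij
      have e : ((code u i : ℤ), (offset u i : ℤ)) = ((code u j : ℤ), (offset u j : ℤ)) := by
        have := congrArg ofLex hij
        simpa only [entry, ofLex_toLex] using this
      rw [Prod.mk.injEq] at e
      have e1 : code u i = code u j := by exact_mod_cast e.1
      have e2 : offset u i = offset u j := by exact_mod_cast e.2
      rcases lt_trichotomy i j with h | h | h
      · have := offset_lt h e1; omega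
      · exact h
      · have := offset_lt h e1.symm; omega
  apply h1.congr
  filter_upwards [eventually_ge_atTop h] with N hN
  have hc := code_stretch u N
  rw [schubert_spec.eq_Phi (h := h)]
  · apply Phi_congr
    intro j hj
    rw [apply_stretch hc hN hj]
    exact (ev_entry u j N).symm
  · intro i j hi hij
    apply apply_lt_of_code_eq hij
    rw [hc, hc, code_eq_zero hh hi, code_eq_zero hh (by omega)]

lemma evS_ne {h : ℕ} {α β : ℕ → Aff} (hα : Adm h α) (hβ : Adm h β) (hne : α ≠ β) :
    ∀ᶠ N in atTop, evS N α ≠ evS N β := by
  obtain ⟨i, hi⟩ := Function.ne_iff.1 hne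
  rcases lt_or_gt_of_ne hi with h | h
  · filter_upwards [evN_lt h (hα.nonneg i)] with N hN heq
    have := congrFun heq i
    simp only [evS] at this
    omega
  · filter_upwards [evN_lt h (hβ.nonneg i)] with N hN heq
    have := congrFun heq i
    simp only [evS] at this
    omega

theorem stable_key_expansion (u : FinPerm) :
    ∃ (t : ℕ) (c : Fin t → ℕ) (γ δ : Fin t → (ℕ →₀ ℤ)) (N₀ : ℕ), (∀ j, 0 < c j) ∧
      ∀ N : ℕ, N₀ ≤ N → ∃ α : Fin t → (ℕ →₀ ℕ),
        (∀ j i, (α j i : ℤ) = N * γ j i + δ j i) ∧ Function.Injective α ∧
        schubert (stretch u N) = ∑ j, c j • key (α j) := by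
  classical
  obtain ⟨h, C, hC, hN⟩ := stable_schubert u
  let e := C.support.equivFin
  -- the sequences of coefficients as finitely supported functions
  have hAdm : ∀ j : Fin C.support.card, Adm h (e.symm j).1 := fun j => hC _ (e.symm j).2
  let γ : Fin C.support.card → (ℕ →₀ ℤ) := fun j =>
    Finsupp.onFinset (Finset.range h) (fun i => (ofLex ((e.symm j).1 i)).1) (by
      intro i hi
      rw [Finset.mem_range]
      by_contra hcon
      apply hi
      rw [(hAdm j).supp i (by omega)]
      rfl)
  let δ : Fin C.support.card → (ℕ →₀ ℤ) := fun j =>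
    Finsupp.onFinset (Finset.range h) (fun i => (ofLex ((e.symm j).1 i)).2) (by
      intro i hi
      rw [Finset.mem_range]
      by_contra hcon
      apply hi
      rw [(hAdm j).supp i (by omega)]
      rfl)
  have h1 : ∀ᶠ N : ℕ in atTop, ∀ j ∈ (Finset.univ : Finset (Fin C.support.card)),
      ∀ i ∈ Finset.range h, (evN N ((e.symm j).1 i) : ℤ) = ev N ((e.symm j).1 i) := by
    rw [Filter.eventually_all_finset]
    intro j _
    rw [Filter.eventually_all_finset]
    intro i _
    exact evN_cast ((hAdm j).nonneg i)
  have h2 : ∀ᶠ N : ℕ in atTop, ∀ j ∈ (Finset.univ : Finset (Fin C.support.card)),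
      ∀ k ∈ (Finset.univ : Finset (Fin C.support.card)), j ≠ k →
        evS N (e.symm j).1 ≠ evS N (e.symm k).1 := by
    rw [Filter.eventually_all_finset]
    intro j _
    rw [Filter.eventually_all_finset]
    intro k _
    by_cases hjk : j = k
    · exact Eventually.of_forall (fun _ h => absurd hjk h)
    · have hne : (e.symm j).1 ≠ (e.symm k).1 := by
        intro heq
        exact hjk (e.symm.injective (Subtype.ext heq))
      filter_upwards [evS_ne (hAdm j) (hAdm k) hne] with N hN _
      exact hN
  obtain ⟨N₀, hN₀⟩ := eventually_atTop.1 (hN.and (h1.and h2))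
  refine ⟨C.support.card, fun j => C (e.symm j).1, γ, δ, N₀, ?_, ?_⟩
  · intro j
    exact Nat.pos_of_ne_zero (Finsupp.mem_support_iff.1 (e.symm j).2)
  · intro N hNN
    obtain ⟨e1, e2, e3⟩ := hN₀ N hNN
    let α : Fin C.support.card → (ℕ →₀ ℕ) := fun j =>
      Finsupp.onFinset (Finset.range h) (evS N (e.symm j).1) (by
        intro i hi
        rw [Finset.mem_range]
        by_contra hcon
        apply hi
        simp only [evS]
        rw [(hAdm j).supp i (by omega), evN_zero])
    refine ⟨α, ?_, ?_, ?_⟩
    · intro j i
      change (evN N ((e.symm j).1 i) : ℤ) =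
        N * (ofLex ((e.symm j).1 i)).1 + (ofLex ((e.symm j).1 i)).2
      by_cases hi : i < h
      · exact e2 j (Finset.mem_univ _) i (Finset.mem_range.2 hi)
      · rw [(hAdm j).supp i (by omega), evN_zero]
        simp
    · intro j k hjk
      by_contra hne
      apply e3 j (Finset.mem_univ _) k (Finset.mem_univ _) hne
      funext i
      exact DFunLike.congr_fun hjk i
    · have e1' : schubert (stretch u N) = C.sum fun α c => c • K h (evS N α) := e1
      rw [e1', Finsupp.sum, ← Finset.sum_coe_sort C.support]
      rw [← Equiv.sum_comp e.symm]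
      refine Finset.sum_congr rfl (fun j _ => ?_)
      rw [key_spec.eq_K h (evS N (e.symm j).1) (α j)]
      · intro i hi
        change evN N ((e.symm j).1 i) = 0
        rw [(hAdm j).supp i hi, evN_zero]
      · intro i
        rfl

end Pool.Agent.Lib.MP_26ab9b_co
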